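import Pool.Agent.N77.OF.Stm2

/-!
# Free products: first syllables and lengths (helper527)
-/

set_option autoImplicit false

namespace Pool.Agent.N77.OF.BASE

open Monoid.CoprodI Pool.Agent.N77.OF

section

open scoped Classical

variable {ι : Type} {M : ι → Type} [∀ i, Group (M i)]

theorem equiv_mul (g h : Monoid.CoprodI M) :
    Word.equiv (g * h) = g • Word.equiv h := mul_smul g h _

theorem equiv_one : Word.equiv (1 : Monoid.CoprodI M) = Word.empty :=
  one_smul (Monoid.CoprodI M) (Word.empty : Word M)

theorem prod_equiv (g : Monoid.CoprodI M) : (Word.equiv g).prod = g :=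
  Word.equiv.symm_apply_apply g

theorem equiv_prod (w : Word M) : Word.equiv w.prod = w :=
  Word.equiv.apply_symm_apply w

theorem equivPair_cons {i : ι} (m : M i) (w : Word M) (h1 : w.fstIdx ≠ some i) (h2 : m ≠ 1) :
    Word.equivPair i (Word.cons m w h1 h2) = ⟨m, w, h1⟩ := by
  have e : Word.cons m w h1 h2 = (Word.equivPair i).symm ⟨m, w, h1⟩ := by
    rw [Word.equivPair_symm, Word.rcons, dif_neg h2]
  rw [e, Equiv.apply_symm_apply]

theorem dir_of_mul (i : ι) (m : M i) (g : Monoid.CoprodI M) : dir i (of m * g) = m * dir i g := by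
  unfold dir
  rw [equiv_mul, Word.equivPair_smul_same]

theorem fst_of_dir {i : ι} {g : Monoid.CoprodI M} (h : dir i g ≠ 1) :
    (Word.equiv g).fstIdx = some i := by
  by_contra h1
  apply h
  unfold dir
  rw [Word.equivPair_eq_of_fstIdx_ne h1]

theorem dir_of_fst {i : ι} {g : Monoid.CoprodI M} (h : (Word.equiv g).fstIdx ≠ some i) :
    dir i g = 1 := by
  unfold dir
  rw [Word.equivPair_eq_of_fstIdx_ne h]

theorem eq_one (g : Monoid.CoprodI M) (h : ∀ i, dir i g = 1) : g = 1 := by
  rw [← prod_equiv g]
  unfold dir at h
  revert h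
  generalize Word.equiv g = w
  induction w using Word.consRecOn with
  | empty => intro _; exact Word.prod_empty
  | cons i m w h1 h2 _ =>
    intro h
    have := h i
    rw [equivPair_cons] at this
    exact absurd this h2

/-- length of the tail -/
noncomputable def tl (i : ι) (g : Monoid.CoprodI M) : ℕ :=
  (Word.equivPair i (Word.equiv g)).tail.toList.length

theorem len_rcons {i : ι} (p : Word.Pair M i) :
    (Word.rcons p).toList.length = p.tail.toList.length + if p.head = 1 then 0 else 1 := by
  unfold Word.rcons
  split_ifs with h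
  · rfl
  · simp

theorem len_eq (i : ι) (g : Monoid.CoprodI M) :
    len g = tl i g + if dir i g = 1 then 0 else 1 := by
  unfold len tl dir
  rw [← len_rcons, ← Word.equivPair_symm, Equiv.symm_apply_apply]

theorem tl_of_mul (i : ι) (m : M i) (g : Monoid.CoprodI M) : tl i (of m * g) = tl i g := by
  unfold tl
  rw [equiv_mul, Word.equivPair_smul_same]

theorem len_of_mul_le (i : ι) (m : M i) (g : Monoid.CoprodI M) : len (of m * g) ≤ len g + 1 := by
  rw [len_eq i, len_eq i g, tl_of_mul]
  split_ifs <;> omega

theorem len_one' : len (1 : Monoid.CoprodI M) = 0 := by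
  unfold len
  rw [equiv_one]
  rfl

theorem len_prod_cons {i : ι} (m : M i) (w : Word M) (h1 : w.fstIdx ≠ some i) (h2 : m ≠ 1) :
    len (Word.cons m w h1 h2).prod = len w.prod + 1 := by
  unfold len
  rw [equiv_prod, equiv_prod]
  simp

theorem len_mul_aux (w : Word M) (h : Monoid.CoprodI M) :
    len (w.prod * h) ≤ len w.prod + len h := by
  induction w using Word.consRecOn with
  | empty => rw [Word.prod_empty, one_mul]; omega
  | cons i m w h1 h2 ih =>
    rw [len_prod_cons, Word.prod_cons, mul_assoc]
    have := len_of_mul_le i m (w.prod * h)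
    omega

theorem len_mul (g h : Monoid.CoprodI M) : len (g * h) ≤ len g + len h := by
  have := len_mul_aux (Word.equiv g) h
  rwa [prod_equiv] at this

theorem len_inv_aux (w : Word M) : len (w.prod)⁻¹ ≤ len w.prod := by
  induction w using Word.consRecOn with
  | empty => rw [Word.prod_empty, inv_one]
  | cons i m w h1 h2 ih =>
    rw [len_prod_cons, Word.prod_cons, mul_inv_rev]
    have h3 := len_mul (w.prod)⁻¹ (of m)⁻¹
    have h4 : len (of (M := M) m)⁻¹ ≤ 1 := by
      have := len_of_mul_le i m⁻¹ 1
      rw [len_one', mul_one, map_inv] at this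
      exact this
    omega

theorem len_inv_le (g : Monoid.CoprodI M) : len g⁻¹ ≤ len g := by
  have := len_inv_aux (Word.equiv g)
  rwa [prod_equiv] at this

theorem base : Base ι M where
  dir_of_mul := dir_of_mul
  dir_ne i j g hij h := by
    apply dir_of_fst
    rw [fst_of_dir h]
    intro h1
    exact hij (Option.some.inj h1).symm
  eq_one := eq_one
  dir_one i := by
    apply dir_of_fst
    rw [equiv_one]
    simp [Word.fstIdx]
  len_one g := by
    constructor
    · intro h
      unfold len at h
      rw [List.length_eq_zero_iff] at h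
      have h1 : Word.equiv g = Word.empty := Word.ext h
      rw [← prod_equiv g, h1, Word.prod_empty]
    · rintro rfl
      exact len_one'
  len_inv g := by
    apply le_antisymm (len_inv_le g)
    have := len_inv_le g⁻¹
    rwa [inv_inv] at this
  len_mul := len_mul
  len_of_mul i m g h := by
    rw [len_eq i, len_eq i g, tl_of_mul, if_neg h]
    split_ifs <;> omega
  len_strip i g h := by
    rw [← map_inv, len_eq i, len_eq i g, tl_of_mul, dir_of_mul, inv_mul_cancel, if_neg h,
      if_pos rfl]

end

theorem main : S_BASE := fun _ _ _ => base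

end Pool.Agent.N77.OF.BASE
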