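import Pool.Agent.N77.OF.Stm2

/-!
# Free products, part EXA: automorphisms all of whose directions are trivial
-/

set_option autoImplicit false

namespace Pool.Agent.N77.OF.EXA

open Monoid.CoprodI Pool.Agent.N77.OF

variable {ι : Type} {M : ι → Type} [∀ i, Group (M i)]

/-- the directions of the images -/
lemma stepA (B : Base ι M) (hM : S_MUL) (φ : MulAut (Monoid.CoprodI M))
    (v : ι → Monoid.CoprodI M) (ψ : ∀ i, MulAut (M i)) (o : ι)
    (h1 : ∀ i (x : M i), φ (of x) = v i * of (ψ i x) * (v i)⁻¹)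
    (h2 : ∀ i j, i ≠ j → dir i ((v i)⁻¹ * v j) = 1) (ho : v o = 1) (n : ℕ) :
    ∀ y : Monoid.CoprodI M, len y ≤ n → ∀ k, dir k ((v k)⁻¹ * φ y) = ψ k (dir k y) := by
  have base : ∀ k, dir k ((v k)⁻¹) = 1 := by
    intro k
    by_cases hk : k = o
    · subst hk
      rw [ho, inv_one, B.dir_one]
    · have := h2 k o hk
      rwa [ho, mul_one] at this
  induction n with
  | zero =>
    intro y hy k
    have hy1 : y = 1 := (B.len_one y).1 (by omega)
    rw [hy1, map_one, mul_one, base k, B.dir_one, map_one]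
  | succ n ih =>
    intro y hy k
    by_cases hy1 : y = 1
    · rw [hy1, map_one, mul_one, base k, B.dir_one, map_one]
    have : ∃ i, dir i y ≠ 1 := by
      by_contra hcon
      push Not at hcon
      exact hy1 (B.eq_one y hcon)
    obtain ⟨i, hi⟩ := this
    have hlen := B.len_strip i y hi
    set x : M i := dir i y with hx
    set y' : Monoid.CoprodI M := (of x)⁻¹ * y with hy'
    have hyy : y = of x * y' := by rw [hy', mul_inv_cancel_left]
    have hdi : dir i y' = 1 := by
      rw [hy', ← map_inv, B.dir_of_mul, ← hx, inv_mul_cancel]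
    have hih := ih y' (by omega)
    have hφ : φ y = v i * (of (ψ i x) * ((v i)⁻¹ * φ y')) := by
      rw [hyy, map_mul, h1]
      simp only [mul_assoc]
    have hdh : dir i (of (ψ i x) * ((v i)⁻¹ * φ y')) = ψ i x := by
      rw [B.dir_of_mul, hih i, hdi, map_one, mul_one]
    by_cases hk : k = i
    · subst hk
      rw [hφ, inv_mul_cancel_left, hdh]
    · rw [hφ, ← mul_assoc]
      have hne : ψ i x ≠ 1 := by
        intro h
        exact hi ((map_eq_one_iff (ψ i) (ψ i).injective).1 h)
      rw [hM ι M i k ((v k)⁻¹ * v i) (of (ψ i x) * ((v i)⁻¹ * φ y')) (Ne.symm hk) (by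
        rw [hdh, mul_inv_rev, inv_inv, h2 i k (Ne.symm hk)]
        exact hne.symm)]
      rw [h2 k i hk, B.dir_ne i k y hk hi, map_one]

lemma stepB (B : Base ι M) (hM : S_MUL) (hR : S_RGT) (φ : MulAut (Monoid.CoprodI M))
    (v : ι → Monoid.CoprodI M) (ψ : ∀ i, MulAut (M i)) (o : ι)
    (h1 : ∀ i (x : M i), φ (of x) = v i * of (ψ i x) * (v i)⁻¹)
    (h2 : ∀ i j, i ≠ j → dir i ((v i)⁻¹ * v j) = 1) (ho : v o = 1) (j : ι) : v j = 1 := by
  by_contra hj
  have hA := stepA B hM φ v ψ o h1 h2 ho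
  have base : ∀ k, dir k ((v k)⁻¹) = 1 := by
    intro k
    by_cases hk : k = o
    · subst hk
      rw [ho, inv_one, B.dir_one]
    · have := h2 k o hk
      rwa [ho, mul_one] at this
  have hjo : j ≠ o := by
    rintro rfl
    exact hj ho
  have : ∃ l, dir l (v j) ≠ 1 := by
    by_contra hcon
    push Not at hcon
    exact hj (B.eq_one _ hcon)
  obtain ⟨l, hl⟩ := this
  have hlo : l ≠ o := by
    rintro rfl
    have := h2 l j (Ne.symm hjo)
    rw [ho, inv_one, one_mul] at this
    exact hl this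
  have hrange : (v l)⁻¹ ∉ (of (M := M) (i := l)).range := by
    rintro ⟨b, hb⟩
    have hb1 : b = 1 := by
      have h3 := base l
      rw [← hb] at h3
      have h4 := B.dir_of_mul l b 1
      rw [mul_one, B.dir_one, mul_one] at h4
      rw [← h4, h3]
    rw [hb1, map_one] at hb
    have hvl : v l = 1 := by
      rw [← inv_inv (v l), ← hb, inv_one]
    by_cases hlj : l = j
    · subst hlj
      exact hj hvl
    · have := h2 l j hlj
      rw [hvl, inv_one, one_mul] at this
      exact hl this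
  obtain ⟨y, hy⟩ := φ.surjective (of (dir l (v j)))
  have hdy : ∀ k, dir k y = 1 := by
    intro k
    have h3 := hA (len y) y le_rfl k
    rw [hy, hR ι M k l ((v k)⁻¹) (dir l (v j)) (fun hkl => by
      subst hkl
      exact hrange), base k] at h3
    exact ((map_eq_one_iff (ψ k) (ψ k).injective).1 h3.symm)
  have hy1 := B.eq_one y hdy
  rw [hy1, map_one] at hy
  apply hl
  apply Monoid.CoprodI.of_injective (M := M) l
  rw [← hy, map_one]

/-- EXA -/
theorem main (hB : S_BASE) (hM : S_MUL) (hR : S_RGT) : S_EXA := by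
  intro ι M _ φ u ψ h1 h2 o j
  have h := stepB (hB ι M) hM hR (MulAut.conj (u o)⁻¹ * φ) (fun i => (u o)⁻¹ * u i) ψ o ?_ ?_
    (by simp) j
  · have h' : (u o)⁻¹ * u j = 1 := h
    rw [inv_mul_eq_one] at h'
    exact h'
  · intro i x
    rw [MulAut.mul_apply, h1, MulAut.conj_apply]
    simp only [mul_assoc, mul_inv_rev, inv_inv]
  · intro i k hik
    have e : ((u o)⁻¹ * u i)⁻¹ * ((u o)⁻¹ * u k) = (u i)⁻¹ * u k := by group
    show dir i (((u o)⁻¹ * u i)⁻¹ * ((u o)⁻¹ * u k)) = 1
    rw [e]
    exact h2 i k hik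

end Pool.Agent.N77.OF.EXA
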