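import Pool.Agent.N77.OF.Stm2

/-!
Project OF (helper77): first syllables of products without complete cancellation (helper966).
-/

set_option autoImplicit false

namespace Pool.Agent.N77.OF.MUL

open Monoid.CoprodI Pool.Agent.N77.OF

variable {ι : Type} {M : ι → Type} [∀ i, Group (M i)]

theorem word_eq [DecidableEq ι] [∀ i, DecidableEq (M i)] {i j : ι} (w : NeWord M i j) :
    Word.equiv w.prod = w.toWord := Word.equiv.apply_symm_apply w.toWord

theorem cast_snd {i : ι} {a : M i} {x : Σ i, M i} (h : x = ⟨i, a⟩) (h' : x.1 = i) :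
    (h' ▸ x.2 : M i) = a := by
  subst h
  rfl

theorem dir_same {i j : ι} (w : NeWord M i j) : dir i w.prod = w.head := by
  classical
  unfold dir
  rw [word_eq, Word.equivPair_head]
  have h1 : w.toWord.toList ≠ [] := w.toList_ne_nil
  have h2 : w.toWord.toList.head h1 = ⟨i, w.head⟩ := by
    rw [List.head_eq_iff_head?_eq_some]
    exact w.toList_head?
  have h3 : ∃ h : w.toWord.toList ≠ [], (w.toWord.toList.head h).1 = i := ⟨h1, by rw [h2]⟩
  rw [dif_pos h3]
  exact cast_snd h2 h3.2

theorem dir_other {i j k : ι} (w : NeWord M i j) (hk : k ≠ i) : dir k w.prod = 1 := by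
  classical
  unfold dir
  rw [word_eq, Word.equivPair_head]
  rw [dif_neg]
  rintro ⟨h1, h3⟩
  have h2 : w.toWord.toList.head h1 = ⟨i, w.head⟩ := by
    rw [List.head_eq_iff_head?_eq_some]
    exact w.toList_head?
  rw [h2] at h3
  exact hk h3.symm

theorem dir_append (m : ι) {i j k l : ι} (w₁ : NeWord M i j) (hne : j ≠ k) (w₂ : NeWord M k l) :
    dir m (w₁.prod * w₂.prod) = dir m w₁.prod := by
  rw [← NeWord.append_prod (hne := hne)]
  by_cases h : m = i
  · subst h
    rw [dir_same, dir_same]
    rfl
  · rw [dir_other _ h, dir_other _ h]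

theorem exists_word {g : Monoid.CoprodI M} (hg : g ≠ 1) :
    ∃ (i j : ι) (w : NeWord M i j), w.prod = g := by
  classical
  have h1 : Word.equiv g ≠ Word.empty := by
    intro h
    apply hg
    have := Word.equiv.symm_apply_apply g
    rw [h] at this
    rw [← this]
    exact Word.prod_empty
  obtain ⟨i, j, w, hw⟩ := NeWord.of_word _ h1
  refine ⟨i, j, w, ?_⟩
  rw [← word_eq] at hw
  exact Word.equiv.injective hw

theorem main (hB : S_BASE) : S_MUL := by
  intro ι M _ i j g h hij hd
  have hb := hB ι M
  by_cases hh : h = 1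
  · rw [hh, mul_one]
  by_cases hg : g = 1
  · subst hg
    rw [one_mul, hb.dir_one]
    rw [inv_one, hb.dir_one] at hd
    exact hb.dir_ne i j h hij.symm hd.symm
  obtain ⟨i1, j1, w, rfl⟩ := exists_word hg
  obtain ⟨k1, l1, v, rfl⟩ := exists_word hh
  by_cases h1 : j1 = k1
  · subst h1
    by_cases h2 : j1 = i
    · subst h2
      rw [← NeWord.inv_prod, dir_same, dir_same] at hd
      set a : M j1 := w.inv.head with ha
      have ha1 : a ≠ 1 := by
        intro h3
        have h4 := dir_same w.inv
        have h5 := hb.len_strip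
        have h6 : w.toWord.toList.getLast? = some ⟨j1, w.last⟩ := w.toList_getLast?
        have h7 := w.toWord.ne_one _ (List.mem_of_getLast? h6)
        rw [ha, NeWord.inv_head] at h3
        exact h7 (inv_eq_one.1 h3)
      set t : Monoid.CoprodI M := (of a)⁻¹ * w.inv.prod with ht
      have ht1 : dir j1 t = 1 := by
        rw [ht, ← map_inv, hb.dir_of_mul, dir_same, ← ha, inv_mul_cancel]
      have hw : w.prod = t⁻¹ * of a⁻¹ := by
        rw [ht, NeWord.inv_prod, map_inv]
        group
      have hav : a⁻¹ * v.head ≠ 1 := by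
        intro h3
        exact hd (inv_mul_eq_one.1 h3)
      have hv : of a⁻¹ * v.prod = (v.mulHead a⁻¹ hav).prod := (NeWord.mulHead_prod _ _ _).symm
      by_cases h3 : t = 1
      · rw [hw, h3, inv_one, one_mul, hv, dir_other _ hij.symm]
        have h4 := NeWord.prod_singleton a⁻¹ (inv_ne_one.2 ha1)
        rw [← h4, dir_other _ hij.symm]
      · obtain ⟨l, l', u, hu⟩ := exists_word h3
        have hl : l ≠ j1 := by
          rintro rfl
          rw [← hu, dir_same] at ht1
          have h6 : u.toWord.toList.head? = some ⟨l, u.head⟩ := u.toList_head?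
          exact u.toWord.ne_one _ (List.mem_of_mem_head? h6) ht1
        rw [hw, ← hu, ← NeWord.inv_prod, mul_assoc, hv, dir_append j u.inv hl,
          ← NeWord.prod_singleton a⁻¹ (inv_ne_one.2 ha1), dir_append j u.inv hl]
    · exfalso
      apply hd
      rw [← NeWord.inv_prod, dir_other _ (Ne.symm h2), dir_other _ (Ne.symm h2)]
  · exact dir_append j w h1 v

end Pool.Agent.N77.OF.MUL

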