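import Pool.Agent.N77.OF.Stm2

/-!
# RGT: multiplication by one syllable on the right (helper401)
-/

set_option autoImplicit false

namespace Pool.Agent.N77.OF.RGT

open Monoid.CoprodI

variable {ι : Type} {M : ι → Type} [∀ i, Group (M i)]

theorem dir_of (hB : Base ι M) {i : ι} (x : M i) : dir i (of x) = x := by
  have h := hB.dir_of_mul i x 1
  rw [mul_one, hB.dir_one, mul_one] at h
  exact h

theorem dir_of_ne (hB : Base ι M) {k l : ι} (h : k ≠ l) (y : M l) : dir k (of y) = 1 := by
  by_cases hy : y = 1
  · rw [hy, map_one]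
    exact hB.dir_one k
  · exact hB.dir_ne l k _ h (by rw [dir_of hB]; exact hy)

theorem aux (hB : Base ι M) (l : ι) (n : M l) : ∀ (N : ℕ) (g : Monoid.CoprodI M), len g = N →
    ∀ k : ι, (k = l → g ∉ (of (M := M) (i := l)).range) → dir k (g * of n) = dir k g := by
  intro N
  induction N with
  | zero =>
    intro g hg k hk
    have h1 : g = 1 := (hB.len_one g).1 hg
    have hkl : k ≠ l := fun h => hk h (by rw [h1]; exact one_mem _)
    rw [h1, one_mul, dir_of_ne hB hkl, hB.dir_one]
  | succ N ih =>
    intro g hg k hk
    have hg1 : g ≠ 1 := by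
      intro h
      have := (hB.len_one g).2 h
      omega
    obtain ⟨i, hi⟩ : ∃ i, dir i g ≠ 1 := by
      by_contra hcon
      push Not at hcon
      exact hg1 (hB.eq_one g hcon)
    obtain ⟨g', hg'⟩ : ∃ g', g' = (of (dir i g))⁻¹ * g := ⟨_, rfl⟩
    have e : g = of (dir i g) * g' := by rw [hg', mul_inv_cancel_left]
    have hlen : len g' = N := by
      have := hB.len_strip i g hi
      rw [← hg'] at this
      omega
    have hd : dir i g' = 1 := by
      have := hB.dir_of_mul i (dir i g)⁻¹ g
      rw [inv_mul_cancel, map_inv, ← hg'] at this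
      exact this
    by_cases hc : i = l → g' ∉ (of (M := M) (i := l)).range
    · have h1 : dir i (g * of n) = dir i g := by
        have h2 : g * of n = of (dir i g) * (g' * of n) := by
          rw [← mul_assoc, ← e]
        rw [h2, hB.dir_of_mul, ih g' hlen i hc, hd, mul_one]
      by_cases hki : k = i
      · rw [hki]
        exact h1
      · rw [hB.dir_ne i k g hki hi, hB.dir_ne i k (g * of n) hki (by rw [h1]; exact hi)]
    · push Not at hc
      obtain ⟨hil, y, hy⟩ := hc
      subst hil
      have hy1 : y = 1 := by
        rw [← hy, dir_of hB] at hd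
        exact hd
      rw [hy1, map_one] at hy
      rw [← hy, mul_one] at e
      have hki : k ≠ i := fun h => hk h ⟨dir i g, e.symm⟩
      rw [e, ← map_mul, dir_of_ne hB hki, dir_of_ne hB hki]

theorem main (hB : S_BASE) : S_RGT := by
  intro ι M _ k l g n h
  exact aux (hB ι M) l n _ g rfl k h

end Pool.Agent.N77.OF.RGT
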