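import Pool.Agent.N77.OF.StmC

/-!
# Automorphisms of a free product of three groups: assembly
-/

set_option autoImplicit false

namespace Pool.Agent.N77.OF

open Monoid.CoprodI
open Pool.Agent.Y110.FJ (ClosedE)
open Pool.Agent.R684.FP (FbC)
open Pool.Agent.R941.FJ (C_equiv)

section

variable {M : Fin 3 → Type} [∀ i, Group (M i)]

/-- the homomorphism from the semidirect product to the automorphisms -/
noncomputable def Ps (hFW : S_FW) :
    (Monoid.CoprodI M ⋊[Fac] (∀ i, MulAut (M i))) →* MulAut (Monoid.CoprodI M) :=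
  SemidirectProduct.lift W Fac (by
    intro ψ
    refine MonoidHom.ext fun w => ?_
    show W (Fac ψ w) = MulAut.conj (Fac ψ) (W w)
    rw [MulAut.conj_apply]
    exact (hFW M ψ w).symm)

theorem Ps_apply (hFW : S_FW) (h : Monoid.CoprodI M ⋊[Fac] (∀ i, MulAut (M i))) :
    Ps hFW h = W h.left * Fac h.right := rfl

theorem W_mem (hT : S_TRI) (hR : S_REP) (w : Monoid.CoprodI M) : W w ∈ PAut M := by
  have h : (W w)⁻¹ ∈ PAut M := by
    rw [hR]
    exact ⟨act w 1, 1, fun i x => hT M w i x⟩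
  have := inv_mem h
  rwa [inv_inv] at this

theorem Fac_mem (hR : S_REP) (ψ : ∀ i, MulAut (M i)) : Fac ψ ∈ PAut M := by
  rw [hR]
  exact ⟨1, ψ, fun i x => by rw [Fac_of]; simp⟩

theorem conj_mem (hR : S_REP) (g : Monoid.CoprodI M) : MulAut.conj g ∈ PAut M := by
  rw [hR]
  exact ⟨fun _ => g, 1, fun i x => by rw [MulAut.conj_apply]; rfl⟩

theorem out_mem {C : ∀ (G : Type) [Group G], Prop} (hC : ClosedE C) (hMet : Met C) (hF : FbC C)
    (hI : S_INJ) (hG : S_GEN) (hT : S_TRI) (hFW : S_FW) (hR : S_REP) (hS : S_SEMI)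
    (hne : ∀ i, Nontrivial (M i)) (hA : ∀ i, C (MulAut (M i)))
    (Q : Type) [Group Q] (f : PAut M →* Q) (hf : Function.Surjective f)
    (hker : ∀ φ, f φ = 1 ↔ ∃ g, (φ : MulAut (Monoid.CoprodI M)) = MulAut.conj g) : C Q := by
  let Φ : (Monoid.CoprodI M ⋊[Fac] (∀ i, MulAut (M i))) →* Q :=
    f.comp ((Ps hFW).codRestrict (PAut M) (fun h => by
      rw [Ps_apply]
      exact mul_mem (W_mem hT hR _) (Fac_mem hR _)))
  have hinj : Function.Injective Φ := by
    rw [injective_iff_map_eq_one]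
    intro h hh
    obtain ⟨g, hg⟩ := (hker _).1 hh
    have h1 : W h.left * Fac h.right = MulAut.conj g := hg
    obtain ⟨h2, h3⟩ := hI M hne _ _ _ h1
    exact SemidirectProduct.ext h2 h3
  have hsurj : Function.Surjective Φ := by
    intro q
    obtain ⟨φ, rfl⟩ := hf q
    obtain ⟨u, ψ, hu⟩ := (hR _ M _).1 φ.2
    obtain ⟨g, w, χ, h⟩ := hG M _ u ψ hu
    refine ⟨⟨w, χ⟩, ?_⟩
    have h1 : φ = ⟨MulAut.conj g, conj_mem hR g⟩ *
        ((Ps hFW).codRestrict (PAut M) (fun h => by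
          rw [Ps_apply]
          exact mul_mem (W_mem hT hR _) (Fac_mem hR _)) ⟨w, χ⟩) := Subtype.ext h
    have h2 : f ⟨MulAut.conj g, conj_mem hR g⟩ = 1 := (hker _).2 ⟨g, rfl⟩
    conv_rhs => rw [h1, map_mul, h2, one_mul]
    rfl
  exact C_equiv hC.base (MulEquiv.ofBijective Φ ⟨hinj, hsurj⟩).symm (hS C hC hMet hF M hA)

/-- the subgroup of the inner automorphisms -/
def InnP (M : Fin 3 → Type) [∀ i, Group (M i)] : Subgroup (PAut M) where
  carrier := {φ | ∃ g, (φ : MulAut (Monoid.CoprodI M)) = MulAut.conj g}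
  one_mem' := ⟨1, by simp⟩
  mul_mem' := by
    rintro φ χ ⟨g, hg⟩ ⟨h, hh⟩
    exact ⟨g * h, by rw [map_mul, ← hg, ← hh]; rfl⟩
  inv_mem' := by
    rintro φ ⟨g, hg⟩
    exact ⟨g⁻¹, by rw [map_inv, ← hg]; rfl⟩

instance : (InnP M).Normal where
  conj_mem := by
    rintro φ ⟨g, hg⟩ χ
    refine ⟨(χ : MulAut (Monoid.CoprodI M)) g, ?_⟩
    show (χ : MulAut (Monoid.CoprodI M)) * φ * (χ : MulAut (Monoid.CoprodI M))⁻¹ = _
    rw [hg]
    ext x
    simp

theorem final {C : ∀ (G : Type) [Group G], Prop} (hC : ClosedE C) (hMet : Met C) (hF : FbC C)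
    (hI : S_INJ) (hG : S_GEN) (hT : S_TRI) (hFW : S_FW) (hR : S_REP) (hS : S_SEMI) (hIN : S_INN)
    (hne : ∀ i, Nontrivial (M i)) (hA : ∀ i, C (MulAut (M i))) :
    C (PAut M) ∧ ∀ (Q : Type) [Group Q] (f : PAut M →* Q), Function.Surjective f →
      (∀ φ, f φ = 1 ↔ ∃ g, (φ : MulAut (Monoid.CoprodI M)) = MulAut.conj g) → C Q := by
  refine ⟨?_, fun Q _ f hf hker => out_mem hC hMet hF hI hG hT hFW hR hS hne hA Q f hf hker⟩
  have hker : ∀ φ, QuotientGroup.mk' (InnP M) φ = 1 ↔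
      ∃ g, (φ : MulAut (Monoid.CoprodI M)) = MulAut.conj g := fun φ => by
    rw [QuotientGroup.mk'_apply, QuotientGroup.eq_one_iff]
    rfl
  exact hIN C hC hMet hF M hne hA _ (QuotientGroup.mk' (InnP M)) (QuotientGroup.mk'_surjective _)
    hker (out_mem hC hMet hF hI hG hT hFW hR hS hne hA _ _ (QuotientGroup.mk'_surjective _) hker)

end

end Pool.Agent.N77.OF
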