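import Pool.Agent.N77.OF.StmC

/-!
# OF/CYC (helper56): extensions of groups with automorphism group in the class
-/

set_option autoImplicit false

namespace Pool.Agent.N77.OF.CYC

open Pool.Agent.N77.OF
open Pool.Agent.Y110.FJ (ClosedE)
open Pool.Agent.R941.FJ (C_cyc C_equiv)

theorem lz : S_LZ := by
  intro C hC hM L _ A _ hQ hA
  refine Pool.Agent.N77.CP.abExt hC hM
    ((QuotientGroup.mk' A).prod (MulAut.conjNormal (H := A))) (hC.base.prod _ _ hQ hA) ?_
  intro x y hx hy
  have hx1 := Prod.ext_iff.1 hx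
  have hy1 := Prod.ext_iff.1 hy
  have hxA : x ∈ A := (QuotientGroup.eq_one_iff x).1 hx1.1
  have h2 : (MulAut.conjNormal (H := A) y) ⟨x, hxA⟩ = ⟨x, hxA⟩ := by
    have h3 : MulAut.conjNormal (H := A) y = 1 := hy1.2
    rw [h3]
    rfl
  have h4 := congrArg Subtype.val h2
  rw [MulAut.conjNormal_apply] at h4
  have h5 : y * x * y⁻¹ = x := h4
  rw [mul_inv_eq_iff_eq_mul] at h5
  exact h5.symm

theorem main : S_CYC := by
  intro C hC hM G _ A g hg hA
  obtain ⟨P, hP⟩ : ∃ P : Subgroup G, P = A ⊔ Subgroup.zpowers g := ⟨_, rfl⟩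
  rw [← hP]
  have hAP : A ≤ P := by rw [hP]; exact le_sup_left
  have hgP : g ∈ P := by rw [hP]; exact Subgroup.mem_sup_right (Subgroup.mem_zpowers g)
  have hle : P ≤ Subgroup.normalizer (A : Set G) := by
    rw [hP]
    refine sup_le Subgroup.le_normalizer ?_
    rw [Subgroup.zpowers_le, Subgroup.mem_normalizer_iff]
    exact hg
  have hn : (A.subgroupOf P).Normal := by
    refine ⟨fun x hx h => ?_⟩
    rw [Subgroup.mem_subgroupOf] at hx ⊢
    exact (Subgroup.mem_normalizer_iff.1 (hle h.2) x).1 hx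
  have hQ : C (P ⧸ A.subgroupOf P) := by
    obtain ⟨q, hq⟩ : ∃ q : P ⧸ A.subgroupOf P, q = QuotientGroup.mk ⟨g, hgP⟩ := ⟨_, rfl⟩
    have h1 : Subgroup.zpowers q = ⊤ := by
      rw [← top_le_iff]
      have h2 : (⊤ : Subgroup P) ≤
          (Subgroup.zpowers q).comap (QuotientGroup.mk' (A.subgroupOf P)) := by
        have h3 : P ≤ ((Subgroup.zpowers q).comap (QuotientGroup.mk' (A.subgroupOf P))).map
            P.subtype := by
          refine hP.le.trans (sup_le ?_ ?_)
          · intro x hx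
            refine ⟨⟨x, hAP hx⟩, ?_, rfl⟩
            show ((⟨x, hAP hx⟩ : P) : P ⧸ A.subgroupOf P) ∈ Subgroup.zpowers q
            rw [(QuotientGroup.eq_one_iff _).2 (by rw [Subgroup.mem_subgroupOf]; exact hx)]
            exact one_mem _
          · rw [Subgroup.zpowers_le]
            refine ⟨⟨g, hgP⟩, ?_, rfl⟩
            show ((⟨g, hgP⟩ : P) : P ⧸ A.subgroupOf P) ∈ Subgroup.zpowers q
            rw [← hq]
            exact Subgroup.mem_zpowers q
        intro x _
        obtain ⟨y, hy, hyx⟩ := h3 x.2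
        have : y = x := Subtype.ext hyx
        rw [← this]
        exact hy
      intro x _
      obtain ⟨y, rfl⟩ := QuotientGroup.mk_surjective x
      exact h2 (Subgroup.mem_top y)
    refine C_equiv hC.base Subgroup.topEquiv.symm ?_
    rw [← h1]
    exact C_cyc hC.base q
  refine lz C hC hM P (A.subgroupOf P) hQ ?_
  exact C_equiv hC.base (MulAut.congr (Subgroup.subgroupOfEquivOfLe hAP)) hA

end Pool.Agent.N77.OF.CYC
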