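import Pool.Agent.N77.OF.Stm2

/-!
# Automorphisms of a free product of three groups: the parts FW and REP (helper255)
-/

set_option autoImplicit false

namespace Pool.Agent.N77.OF.FWR

open Monoid.CoprodI

theorem gen_fw {M : Fin 3 → Type} [∀ i, Group (M i)] (ψ : ∀ i, MulAut (M i)) (i : Fin 3)
    (m : M i) : Fac ψ * pc i m = pc i (ψ i m) * Fac ψ := by
  apply MulEquiv.toMonoidHom_injective
  apply Monoid.CoprodI.ext_hom
  intro j
  ext x : 1
  show Fac ψ (pcHom i m (of x)) = pcHom i (ψ i m) (Fac ψ (of x))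
  rw [Fac_of]
  by_cases h : j = i + 1
  · subst h
    rw [pcHom_of, pcHom_of, map_mul, map_mul, map_inv, Fac_of, Fac_of]
  · rw [pcHom_of_ne i m h, pcHom_of_ne i _ h, Fac_of]

theorem fw : S_FW := by
  intro M _ ψ w
  have h : ((MulAut.conj (Fac ψ)).toMonoidHom).comp W = W.comp (Fac ψ).toMonoidHom := by
    apply Monoid.CoprodI.ext_hom
    intro i
    ext m : 1
    show Fac ψ * W (of m) * (Fac ψ)⁻¹ = W (Fac ψ (of m))
    rw [Fac_of, W_of, W_of, gen_fw, mul_assoc, mul_inv_cancel, mul_one]
  exact DFunLike.congr_fun h w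

theorem rep : S_REP := by
  intro ι M _ φ
  constructor
  · intro hφ
    have h1 : ∀ i, ∃ g : Monoid.CoprodI M,
        (of (M := M) (i := i)).range.map φ.toMonoidHom =
          (of (M := M) (i := i)).range.map (MulAut.conj g).toMonoidHom := hφ
    choose u hu using h1
    have h2 : ∀ i (x : M i), ∃ y : M i, φ (of x) = u i * of y * (u i)⁻¹ := by
      intro i x
      have h3 : φ (of x) ∈ (of (M := M) (i := i)).range.map φ.toMonoidHom :=
        ⟨of x, ⟨x, rfl⟩, rfl⟩
      rw [hu i] at h3
      obtain ⟨_, ⟨y, rfl⟩, hy⟩ := h3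
      exact ⟨y, hy.symm⟩
    choose p hp using h2
    have huniq : ∀ i (x y : M i), φ (of x) = u i * of y * (u i)⁻¹ → y = p i x := by
      intro i x y h
      rw [hp i x] at h
      have h4 : (of y : Monoid.CoprodI M) = of (p i x) := by
        have h5 := mul_right_cancel h
        exact (mul_left_cancel h5).symm
      exact Monoid.CoprodI.of_injective i h4
    have hmul : ∀ i (x y : M i), p i (x * y) = p i x * p i y := by
      intro i x y
      refine (huniq i (x * y) (p i x * p i y) ?_).symm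
      rw [map_mul, map_mul, hp i x, hp i y, map_mul]
      group
    have hinj : ∀ i, Function.Injective (p i) := by
      intro i x y h
      have h4 : φ (of x) = φ (of y) := by rw [hp i x, hp i y, h]
      exact Monoid.CoprodI.of_injective i (φ.injective h4)
    have hsurj : ∀ i, Function.Surjective (p i) := by
      intro i y
      have h3 : (MulAut.conj (u i)) (of y) ∈
          (of (M := M) (i := i)).range.map (MulAut.conj (u i)).toMonoidHom :=
        ⟨of y, ⟨y, rfl⟩, rfl⟩
      rw [← hu i] at h3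
      obtain ⟨_, ⟨x, rfl⟩, hx⟩ := h3
      exact ⟨x, (huniq i x y hx).symm⟩
    refine ⟨u, fun i => MulEquiv.ofBijective (MonoidHom.mk' (p i) (hmul i))
      ⟨hinj i, hsurj i⟩, fun i x => hp i x⟩
  · rintro ⟨u, ψ, h⟩ i
    refine ⟨u i, ?_⟩
    ext z
    constructor
    · rintro ⟨_, ⟨x, rfl⟩, rfl⟩
      exact ⟨of (ψ i x), ⟨ψ i x, rfl⟩, (h i x).symm⟩
    · rintro ⟨_, ⟨y, rfl⟩, rfl⟩
      refine ⟨of ((ψ i).symm y), ⟨(ψ i).symm y, rfl⟩, ?_⟩
      have := h i ((ψ i).symm y)
      rw [MulEquiv.apply_symm_apply] at this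
      exact this

end Pool.Agent.N77.OF.FWR
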