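import Pool.Agent.N77.OF.Stm2

/-!
# Generation (project OF of helper77), helper55
-/

set_option autoImplicit false

namespace Pool.Agent.N77.OF.GEN

open Monoid.CoprodI

variable {M : Fin 3 → Type} [∀ i, Group (M i)]

/-- the size of a triple -/
noncomputable def mu (u : Fin 3 → Monoid.CoprodI M) : ℕ :=
  len ((u 0)⁻¹ * u 1) + len ((u 1)⁻¹ * u 2) + len ((u 2)⁻¹ * u 0)

theorem len_swap (hB : Base (Fin 3) M) (g h : Monoid.CoprodI M) :
    len (g⁻¹ * h) = len (h⁻¹ * g) := by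
  rw [← hB.len_inv (g⁻¹ * h), mul_inv_rev, inv_inv]

theorem mu_eq (hB : Base (Fin 3) M) (u : Fin 3 → Monoid.CoprodI M) (i : Fin 3) :
    mu u = len ((u i)⁻¹ * u (i + 1)) + len ((u i)⁻¹ * u (i + 2)) +
      len (((u i)⁻¹ * u (i + 1))⁻¹ * ((u i)⁻¹ * u (i + 2))) := by
  have h : ∀ g h k : Monoid.CoprodI M, (g⁻¹ * h)⁻¹ * (g⁻¹ * k) = h⁻¹ * k := fun g h k => by
    group
  rw [h]
  unfold mu
  have e00 : (0 : Fin 3) + 1 = 1 := rfl
  have e01 : (0 : Fin 3) + 2 = 2 := rfl
  have e10 : (1 : Fin 3) + 1 = 2 := rfl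
  have e11 : (1 : Fin 3) + 2 = 0 := rfl
  have e20 : (2 : Fin 3) + 1 = 0 := rfl
  have e21 : (2 : Fin 3) + 2 = 1 := rfl
  have hi : i = 0 ∨ i = 1 ∨ i = 2 := by fin_cases i <;> simp
  rcases hi with rfl | rfl | rfl
  · rw [e00, e01, len_swap hB (u 2) (u 0)]
    omega
  · rw [e10, e11, len_swap hB (u 0) (u 1)]
    omega
  · rw [e20, e21, len_swap hB (u 1) (u 2)]
    omega

/-- representation of an automorphism -/
def Rp (φ : MulAut (Monoid.CoprodI M)) (u : Fin 3 → Monoid.CoprodI M)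
    (ψ : ∀ i, MulAut (M i)) : Prop :=
  ∀ i (x : M i), φ (of x) = u i * of (ψ i x) * (u i)⁻¹

/-- the conclusion -/
def Qpr (φ : MulAut (Monoid.CoprodI M)) : Prop :=
  ∃ (g w : Monoid.CoprodI M) (χ : ∀ i, MulAut (M i)), φ = MulAut.conj g * (W w * Fac χ)

theorem Qpr_pc (hF : S_FW) {φ : MulAut (Monoid.CoprodI M)} {i : Fin 3} {m : M i}
    (h : Qpr (φ * pc i m)) : Qpr φ := by
  obtain ⟨g, w, χ, h⟩ := h
  refine ⟨g, w * Fac χ (of m)⁻¹, χ, ?_⟩
  have h1 := hF M χ ((of m)⁻¹)
  have h2 : W ((of m)⁻¹ : Monoid.CoprodI M) = (pc i m)⁻¹ := by rw [map_inv, W_of]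
  rw [h2] at h1
  rw [map_mul, ← h1, eq_mul_inv_of_mul_eq h]
  group

theorem Rp_chg {φ : MulAut (Monoid.CoprodI M)} {u : Fin 3 → Monoid.CoprodI M}
    {ψ : ∀ i, MulAut (M i)} (h : Rp φ u ψ) (i : Fin 3) (c : M i) :
    ∃ ψ', Rp φ (Function.update u i (u i * of c)) ψ' := by
  refine ⟨Function.update ψ i (MulAut.conj c⁻¹ * ψ i), ?_⟩
  intro j x
  by_cases hj : j = i
  · subst hj
    rw [Function.update_self, Function.update_self, h j x]
    have : (MulAut.conj c⁻¹ * ψ j) x = c⁻¹ * ψ j x * c := by simp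
    rw [this, map_mul, map_mul, map_inv]
    group
  · rw [Function.update_of_ne hj, Function.update_of_ne hj, h j x]

theorem Rp_pc {φ : MulAut (Monoid.CoprodI M)} {u : Fin 3 → Monoid.CoprodI M}
    {ψ : ∀ i, MulAut (M i)} (h : Rp φ u ψ) (i : Fin 3) (m : M i) :
    Rp (φ * pc i m) (Function.update u (i + 1)
      (u i * (of (ψ i m))⁻¹ * (u i)⁻¹ * u (i + 1))) ψ := by
  intro j x
  rw [MulAut.mul_apply, pc_apply]
  by_cases hj : j = i + 1
  · subst hj
    rw [pcHom_of, map_mul, map_mul, map_inv, h i m, h (i + 1) x, Function.update_self]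
    group
  · rw [pcHom_of_ne i m hj, Function.update_of_ne hj, h j x]

theorem main (hB : S_BASE) (hL : S_LEN) (hE : S_EXA) (hF : S_FW) : S_GEN := by
  intro M _ φ u ψ hR
  have hb := hB (Fin 3) M
  have n1 : ∀ i : Fin 3, i ≠ i + 1 := by decide
  have n2 : ∀ i : Fin 3, i ≠ i + 2 := by decide
  have n3 : ∀ i : Fin 3, i + 1 ≠ i + 2 := by decide
  have n4 : ∀ i j : Fin 3, i ≠ j → j = i + 1 ∨ j = i + 2 := by decide
  suffices key : ∀ (n : ℕ) (φ : MulAut (Monoid.CoprodI M)) (u : Fin 3 → Monoid.CoprodI M)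
      (ψ : ∀ i, MulAut (M i)), mu u = n → Rp φ u ψ → Qpr φ from key _ φ u ψ rfl hR
  intro n
  induction n using Nat.strong_induction_on with
  | _ n ih =>
  intro φ u ψ hn hR
  by_cases hall : ∀ i j, i ≠ j → dir i ((u i)⁻¹ * u j) = 1
  · have hu := hE (Fin 3) M φ u ψ hR hall
    refine ⟨u 0, 1, ψ, ?_⟩
    apply MulEquiv.toMonoidHom_injective
    apply Monoid.CoprodI.ext_hom
    intro j
    ext x : 1
    show φ (of x) = (MulAut.conj (u 0) * (W (1 : Monoid.CoprodI M) * Fac ψ) :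
      MulAut (Monoid.CoprodI M)) (of x)
    rw [map_one W, one_mul, MulAut.mul_apply, Fac_of, MulAut.conj_apply, hR j x, hu j 0]
  · push Not at hall
    obtain ⟨i, j, hij, hd⟩ := hall
    obtain ⟨a, ha⟩ : ∃ a, a = (u i)⁻¹ * u (i + 1) := ⟨_, rfl⟩
    obtain ⟨b, hbb⟩ : ∃ b, b = (u i)⁻¹ * u (i + 2) := ⟨_, rfl⟩
    have hmu := mu_eq hb u i
    rw [← ha, ← hbb] at hmu
    have hne : dir i a ≠ 1 ∨ dir i b ≠ 1 := by
      rcases n4 i j hij with rfl | rfl
      · left; rw [ha]; exact hd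
      · right; rw [hbb]; exact hd
    by_cases hα : dir i a = 1
    · -- `α = 1`, `β ≠ 1`
      have hβ : dir i b ≠ 1 := by
        rcases hne with h | h
        · exact absurd hα h
        · exact h
      set β := dir i b with hβd
      have hR1 := Rp_pc hR i ((ψ i).symm β⁻¹)
      have e : (of (ψ i ((ψ i).symm β⁻¹)))⁻¹ = (of β : Monoid.CoprodI M) := by
        rw [MulEquiv.apply_symm_apply, map_inv, inv_inv]
      rw [e] at hR1
      obtain ⟨ψ', hR2⟩ := Rp_chg hR1 i β
      refine Qpr_pc hF (ih _ ?_ _ _ ψ' rfl hR2)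
      rw [← hn, hmu, mu_eq hb _ i]
      have q0 : Function.update u (i + 1) (u i * of β * (u i)⁻¹ * u (i + 1)) i = u i :=
        Function.update_of_ne (n1 i) _ _
      rw [q0, Function.update_self, Function.update_of_ne (n1 i).symm,
        Function.update_of_ne (n2 i).symm, Function.update_self,
        Function.update_of_ne (n3 i).symm]
      have e1 : (u i * of β)⁻¹ * (u i * of β * (u i)⁻¹ * u (i + 1)) = a := by
        rw [ha]; group
      have e2 : (u i * of β)⁻¹ * u (i + 2) = (of β)⁻¹ * b := by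
        rw [hbb]; group
      rw [e1, e2]
      have l1 := hb.len_strip i b hβ
      have l2 := hb.len_mul a⁻¹ ((of β)⁻¹ * b)
      have l3 := hL (Fin 3) M i a⁻¹ b (by rw [inv_inv, hα]; exact fun h => hβ h.symm)
        (Or.inr (by rw [inv_inv, hα]))
      have l4 := hb.len_inv a
      rw [← hβd] at l1
      omega
    · by_cases hβ : dir i b = 1
      · -- `α ≠ 1`, `β = 1`
        set α := dir i a with hαd
        have hR1 := Rp_pc hR i ((ψ i).symm α)
        rw [MulEquiv.apply_symm_apply] at hR1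
        refine Qpr_pc hF (ih _ ?_ _ _ ψ rfl hR1)
        rw [← hn, hmu, mu_eq hb _ i]
        rw [Function.update_of_ne (n1 i), Function.update_self,
          Function.update_of_ne (n3 i).symm, ← hbb]
        have e1 : (u i)⁻¹ * (u i * (of α)⁻¹ * (u i)⁻¹ * u (i + 1)) = (of α)⁻¹ * a := by
          rw [ha]; group
        rw [e1]
        have l1 := hb.len_strip i a hα
        have l2 := hb.len_mul ((of α)⁻¹ * a)⁻¹ b
        have l3 := hL (Fin 3) M i a⁻¹ b (by rw [inv_inv, hβ]; exact hα) (Or.inl hβ)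
        have l4 := hb.len_inv a
        have l5 := hb.len_inv ((of α)⁻¹ * a)
        rw [← hαd] at l1
        omega
      · -- both nontrivial
        set α := dir i a with hαd
        obtain ⟨ψ', hR2⟩ := Rp_chg hR i α
        refine ih _ ?_ _ _ ψ' rfl hR2
        rw [← hn, hmu, mu_eq hb _ i]
        rw [Function.update_self, Function.update_of_ne (n1 i).symm,
          Function.update_of_ne (n2 i).symm]
        have e1 : (u i * of α)⁻¹ * u (i + 1) = (of α)⁻¹ * a := by
          rw [ha]; group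
        have e2 : (u i * of α)⁻¹ * u (i + 2) = (of α)⁻¹ * b := by
          rw [hbb]; group
        rw [e1, e2]
        have e3 : ((of α)⁻¹ * a)⁻¹ * ((of α)⁻¹ * b) = a⁻¹ * b := by group
        rw [e3]
        have l1 := hb.len_strip i a hα
        have l2 : len ((of α)⁻¹ * b) ≤ len b := by
          rw [← map_inv]
          exact hb.len_of_mul i α⁻¹ b hβ
        rw [← hαd] at l1
        omega

end Pool.Agent.N77.OF.GEN
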