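import Pool.Agent.N77.OF.Stm2

/-!
# Automorphisms of a free product of three groups: part INJ
-/

set_option autoImplicit false

namespace Pool.Agent.N77.OF.INJ

open Monoid.CoprodI

theorem dir_of_ne {ι : Type} {M : ι → Type} [∀ i, Group (M i)] (hB : Base ι M) {i j : ι}
    (h : i ≠ j) (n : M j) : dir i (of (M := M) n) = 1 := by
  by_cases hn : n = 1
  · rw [hn, map_one]
    exact hB.dir_one i
  · refine hB.dir_ne j i _ h ?_
    have h1 := hB.dir_of_mul j n 1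
    rw [mul_one, hB.dir_one, mul_one] at h1
    rw [h1]
    exact hn

theorem dir_of_self {ι : Type} {M : ι → Type} [∀ i, Group (M i)] (hB : Base ι M) (j : ι)
    (n : M j) : dir j (of (M := M) n) = n := by
  have h1 := hB.dir_of_mul j n 1
  rwa [mul_one, hB.dir_one, mul_one] at h1

theorem main (hB : S_BASE) (hN : S_NRM) (hP : S_PP) (hT : S_TRI) : S_INJ := by
  intro M _ hM w ψ g h
  have hb : Base (Fin 3) M := hB (Fin 3) M
  -- the first step
  have h1 : ∀ (j : Fin 3) (x : M j), (W w)⁻¹ (of x) =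
      Fac ψ g⁻¹ * of (ψ j x) * (Fac ψ g⁻¹)⁻¹ := by
    intro j x
    have h2 : (W w)⁻¹ = Fac ψ * MulAut.conj g⁻¹ := by
      have h3 : W w = MulAut.conj g * (Fac ψ)⁻¹ := by rw [← h]; group
      rw [h3]
      simp
    rw [h2, MulAut.mul_apply, MulAut.conj_apply, map_mul, map_mul, Fac_of, inv_inv, map_inv,
      inv_inv]
  have h2 : ∀ j : Fin 3, ∃ n : M j, act w 1 j = Fac ψ g⁻¹ * of n := by
    intro j
    obtain ⟨x, hx⟩ := exists_ne (1 : M j)
    have h3 := h1 j x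
    rw [hT M w j x] at h3
    obtain ⟨n, hn⟩ := hN (Fin 3) M j ((Fac ψ g⁻¹)⁻¹ * act w 1 j) x (ψ j x) hx (by
      rw [mul_inv_rev, inv_inv]
      calc (Fac ψ g⁻¹)⁻¹ * act w 1 j * of x * ((act w 1 j)⁻¹ * Fac ψ g⁻¹)
          = (Fac ψ g⁻¹)⁻¹ * (act w 1 j * of x * (act w 1 j)⁻¹) * Fac ψ g⁻¹ := by group
        _ = (Fac ψ g⁻¹)⁻¹ * (Fac ψ g⁻¹ * of (ψ j x) * (Fac ψ g⁻¹)⁻¹) * Fac ψ g⁻¹ := by rw [h3]
        _ = of (ψ j x) := by group)
    refine ⟨n, ?_⟩
    rw [hn]
    group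
  choose n hn using h2
  have h3 : ∀ i j : Fin 3, j ≠ i → dir i ((act w 1 i)⁻¹ * act w 1 j) = (n i)⁻¹ := by
    intro i j hij
    have h4 : (act w 1 i)⁻¹ * act w 1 j = of (n i)⁻¹ * of (n j) := by
      rw [hn i, hn j, mul_inv_rev]
      simp only [mul_assoc, inv_mul_cancel_left, map_inv]
    rw [h4, hb.dir_of_mul, dir_of_ne hb (Ne.symm hij), mul_one]
  have hw : w = 1 := by
    by_contra hw
    obtain ⟨i, hi⟩ := hP M w hw
    apply hi
    have e1 : i + 1 ≠ i := (by decide : ∀ t : Fin 3, t + 1 ≠ t) i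
    have e2 : i + 2 ≠ i := (by decide : ∀ t : Fin 3, t + 2 ≠ t) i
    rw [h3 i _ e1, h3 i _ e2]
  refine ⟨hw, ?_⟩
  rw [hw, map_one, one_mul] at h
  -- the second step
  have h4 : ∀ j : Fin 3, g ∈ (of (M := M) (i := j)).range := by
    intro j
    obtain ⟨x, hx⟩ := exists_ne (1 : M j)
    refine hN (Fin 3) M j g x (ψ j x) hx ?_
    rw [← Fac_of, h, MulAut.conj_apply]
  have hg : g = 1 := by
    obtain ⟨a, ha⟩ := h4 0
    obtain ⟨b, hb'⟩ := h4 1
    by_contra hg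
    have ha1 : dir 0 g ≠ 1 := by
      rw [← ha, dir_of_self hb]
      intro e
      rw [e, map_one] at ha
      exact hg ha.symm
    have e5 := hb.dir_ne 0 1 g (by decide) ha1
    rw [← hb', dir_of_self hb] at e5
    rw [e5, map_one] at hb'
    exact hg hb'.symm
  rw [hg, map_one] at h
  funext j
  ext x
  have h5 : of (M := M) (ψ j x) = of x := by
    rw [← Fac_of, h]
    rfl
  exact of_injective j h5

end Pool.Agent.N77.OF.INJ
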