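import Pool.Agent.N77.OF.StmC

/-!
# Automorphisms of a free product of three groups: part INN

The inner automorphisms form a free product with trivial centre, and the theorem on extensions by
free products (`Pool.Agent.R684.FP.main_all`) applies.
-/

set_option autoImplicit false

namespace Pool.Agent.N77.OF.INN

open Monoid.CoprodI
open Pool.Agent.Y110.FJ (ClosedE)
open Pool.Agent.R684.FP (FbC IsFreeProd Pm main_all)
open Pool.Agent.R941.FJ (C_equiv)

variable {M : Fin 3 → Type} [∀ i, Group (M i)]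

/-- the inner automorphisms -/
def cPA : Monoid.CoprodI M →* PAut M :=
  (MulAut.conj (G := Monoid.CoprodI M)).codRestrict (PAut M) fun g _ => ⟨g, rfl⟩

theorem cPA_coe (g : Monoid.CoprodI M) : ((cPA g : PAut M) : MulAut (Monoid.CoprodI M)) =
    MulAut.conj g := rfl

theorem conj_cPA (θ : PAut M) (y : Monoid.CoprodI M) :
    θ * cPA y * θ⁻¹ = cPA ((θ : MulAut (Monoid.CoprodI M)) y) := by
  apply Subtype.ext
  show (θ : MulAut (Monoid.CoprodI M)) * MulAut.conj y * (θ : MulAut (Monoid.CoprodI M))⁻¹ =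
    MulAut.conj ((θ : MulAut (Monoid.CoprodI M)) y)
  ext x
  simp

theorem of_eq_one {i j : Fin 3} (hij : i ≠ j) {a : M i} {b : M j}
    (h : (of a : Monoid.CoprodI M) = of b) : a = 1 := by
  let π : Monoid.CoprodI M →* (∀ k, M k) := Monoid.CoprodI.lift fun k => MonoidHom.mulSingle M k
  have h1 : π (of a) = Pi.mulSingle i a := by
    show Monoid.CoprodI.lift (fun k => MonoidHom.mulSingle M k) (of a) = _
    rw [Monoid.CoprodI.lift_of]
    rfl
  have h2 : π (of b) = Pi.mulSingle j b := by
    show Monoid.CoprodI.lift (fun k => MonoidHom.mulSingle M k) (of b) = _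
    rw [Monoid.CoprodI.lift_of]
    rfl
  have h3 : (Pi.mulSingle i a : ∀ k, M k) i = (Pi.mulSingle j b : ∀ k, M k) i := by
    rw [← h1, ← h2, h]
  rw [Pi.mulSingle_eq_same, Pi.mulSingle_eq_of_ne hij] at h3
  exact h3

theorem cPA_inj (hN : S_NRM) (hnt : ∀ i, Nontrivial (M i)) :
    Function.Injective (cPA : Monoid.CoprodI M →* PAut M) := by
  rw [injective_iff_map_eq_one]
  intro g hg
  have h0 : ∀ x : Monoid.CoprodI M, g * x * g⁻¹ = x := by
    intro x
    have h1 : MulAut.conj g = (1 : MulAut (Monoid.CoprodI M)) := congrArg Subtype.val hg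
    have h2 := congrArg (fun t : MulAut (Monoid.CoprodI M) => t x) h1
    simpa using h2
  have h1 : ∀ i : Fin 3, g ∈ (of (M := M) (i := i)).range := by
    intro i
    obtain ⟨m, hm⟩ := (nontrivial_iff_exists_ne (1 : M i)).1 (hnt i)
    exact hN _ M i g m m hm (h0 _)
  obtain ⟨a, ha⟩ := h1 0
  obtain ⟨b, hb⟩ := h1 1
  have h2 : a = 1 := of_eq_one (i := 0) (j := 1) (by decide) (ha.trans hb.symm)
  rw [← ha, h2, map_one]

/-- the images of the factors -/
def A (i : Fin 3) : Subgroup (PAut M) :=
  ((cPA : Monoid.CoprodI M →* PAut M).comp (of (M := M) (i := i))).range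

theorem mem_A {i : Fin 3} {x : PAut M} :
    x ∈ A i ↔ ∃ m : M i, cPA (of m) = x := Iff.rfl

theorem A_conj {i : Fin 3} (θ : PAut M)
    (h : (of (M := M) (i := i)).range.map (θ : MulAut (Monoid.CoprodI M)).toMonoidHom =
      (of (M := M) (i := i)).range) (x : PAut M) : x ∈ A i ↔ θ * x * θ⁻¹ ∈ A i := by
  constructor
  · rintro ⟨m, rfl⟩
    have h1 : (θ : MulAut (Monoid.CoprodI M)) (of m) ∈ (of (M := M) (i := i)).range := by
      rw [← h]
      exact ⟨of m, ⟨m, rfl⟩, rfl⟩
    obtain ⟨m', hm'⟩ := h1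
    refine ⟨m', ?_⟩
    show cPA (of m') = θ * cPA (of m) * θ⁻¹
    rw [conj_cPA, hm']
  · rintro ⟨m', hm'⟩
    have h1 : (of m' : Monoid.CoprodI M) ∈ (of (M := M) (i := i)).range.map
        (θ : MulAut (Monoid.CoprodI M)).toMonoidHom := by
      rw [h]
      exact ⟨m', rfl⟩
    obtain ⟨_, ⟨m, rfl⟩, hm⟩ := h1
    refine ⟨m, ?_⟩
    have h2 : cPA (of m') = θ * cPA (of m) * θ⁻¹ := by
      rw [conj_cPA]
      exact congrArg cPA hm.symm
    have h3 : θ * cPA (of m) * θ⁻¹ = θ * x * θ⁻¹ := by
      rw [← h2]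
      exact hm'
    exact mul_left_cancel (mul_right_cancel h3)

theorem comp_inj (hN : S_NRM) (hnt : ∀ i, Nontrivial (M i)) (i : Fin 3) :
    Function.Injective ((cPA : Monoid.CoprodI M →* PAut M).comp (of (M := M) (i := i))) :=
  (cPA_inj hN hnt).comp (Monoid.CoprodI.of_injective i)

/-- the isomorphism of a factor with its image -/
noncomputable def eA (hN : S_NRM) (hnt : ∀ i, Nontrivial (M i)) (i : Fin 3) :
    M i ≃* (A i : Subgroup (PAut M)) :=
  MonoidHom.ofInjective (comp_inj hN hnt i)

theorem eA_coe (hN : S_NRM) (hnt : ∀ i, Nontrivial (M i)) (i : Fin 3) (m : M i) :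
    ((eA hN hnt i m : (A i : Subgroup (PAut M))) : PAut M) = cPA (of m) := rfl

theorem isFreeProd (hN : S_NRM) (hnt : ∀ i, Nontrivial (M i)) :
    IsFreeProd (cPA : Monoid.CoprodI M →* PAut M).range (A : Fin 3 → Subgroup (PAut M)) := by
  constructor
  · have h1 : (cPA : Monoid.CoprodI M →* PAut M) =
        Monoid.CoprodI.lift fun i =>
          (cPA : Monoid.CoprodI M →* PAut M).comp (of (M := M) (i := i)) := by
      apply Monoid.CoprodI.ext_hom
      intro i
      ext m : 1
      show cPA (of m) = Monoid.CoprodI.lift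
        (fun i => (cPA : Monoid.CoprodI M →* PAut M).comp (of (M := M) (i := i)))
        (of (M := M) m)
      rw [Monoid.CoprodI.lift_of]
      rfl
    rw [h1, Monoid.CoprodI.range_eq_iSup]
    rfl
  · let s : Monoid.CoprodI (fun i => (A i : Subgroup (PAut M))) →* Monoid.CoprodI M :=
      Monoid.CoprodI.lift fun i => of.comp (eA hN hnt i).symm.toMonoidHom
    let r : Monoid.CoprodI M →* Monoid.CoprodI (fun i => (A i : Subgroup (PAut M))) :=
      Monoid.CoprodI.lift fun i =>
        (of (M := fun i => (A i : Subgroup (PAut M))) (i := i)).comp (eA hN hnt i).toMonoidHom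
    have hs : ∀ (i : Fin 3) (a : (A i : Subgroup (PAut M))),
        s (of (M := fun i => (A i : Subgroup (PAut M))) (i := i) a) =
          of ((eA hN hnt i).symm a) := by
      intro i a
      show Monoid.CoprodI.lift (fun i => of.comp (eA hN hnt i).symm.toMonoidHom) _ = _
      rw [Monoid.CoprodI.lift_of]
      rfl
    have hr : ∀ (i : Fin 3) (m : M i), r (of m) =
        of (M := fun i => (A i : Subgroup (PAut M))) (i := i) (eA hN hnt i m) := by
      intro i m
      show Monoid.CoprodI.lift (fun i =>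
        (of (M := fun i => (A i : Subgroup (PAut M))) (i := i)).comp
          (eA hN hnt i).toMonoidHom) _ = _
      rw [Monoid.CoprodI.lift_of]
      rfl
    have hrs : r.comp s = MonoidHom.id _ := by
      apply Monoid.CoprodI.ext_hom
      intro i
      ext a : 1
      show r (s (of (M := fun i => (A i : Subgroup (PAut M))) (i := i) a)) =
        of (M := fun i => (A i : Subgroup (PAut M))) (i := i) a
      rw [hs, hr, MulEquiv.apply_symm_apply]
    have hsi : Function.Injective s := by
      intro x y hxy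
      have h1 : r (s x) = r (s y) := by rw [hxy]
      have h2 : ∀ z, r (s z) = z := fun z => congrArg (fun t => t z) hrs
      rwa [h2, h2] at h1
    have hcs : (Monoid.CoprodI.lift fun i => (A i : Subgroup (PAut M)).subtype) =
        (cPA : Monoid.CoprodI M →* PAut M).comp s := by
      apply Monoid.CoprodI.ext_hom
      intro i
      ext a : 1
      show Monoid.CoprodI.lift (fun i => (A i : Subgroup (PAut M)).subtype)
          (of (M := fun i => (A i : Subgroup (PAut M))) (i := i) a) =
        cPA (s (of (M := fun i => (A i : Subgroup (PAut M))) (i := i) a))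
      rw [Monoid.CoprodI.lift_of, hs]
      have h1 := eA_coe hN hnt i ((eA hN hnt i).symm a)
      rw [MulEquiv.apply_symm_apply] at h1
      exact h1
    rw [hcs]
    exact (cPA_inj hN hnt).comp hsi

/-- **INN** -/
theorem main (hCYC : S_CYC) (hN : S_NRM) (_hRep : S_REP) : S_INN := by
  intro C hC hMet hFb M _ hnt hM Q _ f hf hker hQ
  have hk : f.ker = (cPA : Monoid.CoprodI M →* PAut M).range := by
    ext φ
    rw [MonoidHom.mem_ker, hker]
    constructor
    · rintro ⟨g, hg⟩
      exact ⟨g, Subtype.ext hg.symm⟩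
    · rintro ⟨g, hg⟩
      exact ⟨g, (congrArg Subtype.val hg).symm⟩
  have hfp := isFreeProd (M := M) hN hnt
  rw [← hk] at hfp
  refine main_all hC hFb (N := f.ker)
    (C_equiv hC.base (QuotientGroup.quotientKerEquivOfSurjective f hf) hQ)
    (A : Fin 3 → Subgroup (PAut M)) Set.univ hfp (fun i hi => absurd (Set.mem_univ i) hi) ?_ ?_
  · intro i _ φ
    obtain ⟨g, hg⟩ := φ.2 i
    refine ⟨i, Set.mem_univ i, cPA g⁻¹, ?_, ?_⟩
    · rw [hk]
      exact ⟨g⁻¹, rfl⟩
    · intro x
      have h1 := A_conj (i := i) (cPA g⁻¹ * φ) ?_ x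
      · rw [h1]
        have h2 : cPA g⁻¹ * φ * x * (cPA g⁻¹ * φ)⁻¹ = cPA g⁻¹ * (φ * x * φ⁻¹) * (cPA g⁻¹)⁻¹ := by
          group
        rw [h2]
      · have h2 : ((cPA g⁻¹ * φ : PAut M) : MulAut (Monoid.CoprodI M)).toMonoidHom =
            (MulAut.conj g⁻¹).toMonoidHom.comp
              (φ : MulAut (Monoid.CoprodI M)).toMonoidHom := rfl
        have h4 : (MulAut.conj g⁻¹).toMonoidHom.comp (MulAut.conj g).toMonoidHom =
            MonoidHom.id (Monoid.CoprodI M) := by
          ext x; simp
        rw [h2, ← Subgroup.map_map, hg, Subgroup.map_map, h4, Subgroup.map_id]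
  · intro i _ g hg
    exact hCYC C hC hMet (PAut M) (A i) g hg
      (C_equiv hC.base (MulAut.congr (eA hN hnt i).symm) (hM i))

end Pool.Agent.N77.OF.INN
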