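import Pool.Agent.N77.OF.Stm2

/-!
# OF/LEN (helper335): lengths of reduced products in a free product
-/

set_option autoImplicit false

namespace Pool.Agent.N77.OF.LEN

open Monoid.CoprodI

variable {ι : Type} {M : ι → Type} [∀ i, Group (M i)]

lemma cast_ne {i : ι} : ∀ (s : Σ i, M i) (h : s.1 = i), s.2 ≠ 1 → (h ▸ s.2 : M i) ≠ 1 := by
  rintro ⟨a, x⟩ rfl hx
  exact hx

open scoped Classical in
lemma equiv_prod {i j : ι} (w : NeWord M i j) : Word.equiv w.prod = w.toWord :=
  Word.equiv.apply_symm_apply w.toWord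

lemma dir_prod {i j : ι} (w : NeWord M i j) : dir i w.prod ≠ 1 := by
  classical
  unfold dir
  rw [equiv_prod, Word.equivPair_head]
  have h2 : w.toWord.toList ≠ [] := w.toList_ne_nil
  have h3 : w.toWord.toList.head h2 = ⟨i, w.head⟩ := by
    have h4 := w.toList_head?
    rw [List.head?_eq_some_head w.toList_ne_nil] at h4
    exact Option.some.inj h4
  have h5 : (w.toWord.toList.head h2).1 = i := by rw [h3]
  rw [dif_pos ⟨h2, h5⟩]
  exact cast_ne _ h5 (w.toWord.ne_one _ (List.head_mem h2))

lemma len_prod {i j : ι} (w : NeWord M i j) : len w.prod = w.toList.length := by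
  classical
  unfold len
  rw [equiv_prod]
  rfl

lemma exists_neWord (g : Monoid.CoprodI M) (hg : g ≠ 1) :
    ∃ (i j : ι) (w : NeWord M i j), w.prod = g := by
  classical
  have h1 : Word.equiv g ≠ Word.empty := by
    intro h
    apply hg
    have h2 := Word.equiv.symm_apply_apply g
    rw [h] at h2
    rw [← h2]
    exact Word.prod_empty
  obtain ⟨i, j, w, hw⟩ := NeWord.of_word (Word.equiv g) h1
  refine ⟨i, j, w, ?_⟩
  have h3 : w.toWord.prod = g := by
    rw [hw]
    exact Word.equiv.symm_apply_apply g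
  exact h3

lemma key (hB : Base ι M) (i : ι) (g h : Monoid.CoprodI M) (h1 : dir i g⁻¹ = 1)
    (h2 : dir i h ≠ 1) : len (g * h) = len g + len h := by
  by_cases hg : g = 1
  · rw [hg, one_mul, (hB.len_one 1).2 rfl, zero_add]
  have hh : h ≠ 1 := by
    rintro rfl
    exact h2 (hB.dir_one i)
  obtain ⟨a, b, w, rfl⟩ := exists_neWord g hg
  obtain ⟨c, d, v, rfl⟩ := exists_neWord h hh
  have hc : c = i := by
    by_contra hne
    exact h2 (hB.dir_ne c i _ (Ne.symm hne) (dir_prod v))
  have hb : b ≠ i := by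
    rintro rfl
    rw [← NeWord.inv_prod] at h1
    exact dir_prod w.inv h1
  subst hc
  rw [← NeWord.append_prod (hne := hb), len_prod, len_prod, len_prod]
  exact List.length_append

theorem main (hB : S_BASE) : S_LEN := by
  intro ι M _ i g h hne hor
  have hb := hB ι M
  rcases hor with h1 | h1
  · have h2 : dir i g⁻¹ ≠ 1 := by rwa [h1] at hne
    have h3 := key hb i h⁻¹ g⁻¹ (by rw [inv_inv]; exact h1) h2
    rw [← mul_inv_rev, hb.len_inv, hb.len_inv, hb.len_inv] at h3
    rw [h3, add_comm]
  · have h2 : dir i h ≠ 1 := by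
      rw [h1] at hne
      exact hne.symm
    exact key hb i g h h1 h2

end Pool.Agent.N77.OF.LEN
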