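import Pool.Agent.N77.OF.Stm2

/-!
# OF/NRM (helper216): the factors of a free product are malnormal
-/

set_option autoImplicit false

namespace Pool.Agent.N77.OF.NRM

open Monoid.CoprodI

variable {ι : Type} {M : ι → Type} [∀ i, Group (M i)]

theorem dir_of (hB : Base ι M) (j : ι) (x : M j) : dir j (of x : Monoid.CoprodI M) = x := by
  have h := hB.dir_of_mul j x 1
  rwa [mul_one, hB.dir_one, mul_one] at h

theorem dir_of_ne (hB : Base ι M) {j k : ι} (hk : k ≠ j) (x : M j) :
    dir k (of x : Monoid.CoprodI M) = 1 := by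
  by_cases hx : x = 1
  · rw [hx, map_one]
    exact hB.dir_one k
  · exact hB.dir_ne j k _ hk (by rw [dir_of hB]; exact hx)

theorem key (hB : Base ι M) (hM : S_MUL) {j k : ι} (hk : k ≠ j) {g : Monoid.CoprodI M}
    {x y : M j} (hx : x ≠ 1) (h : g * of x * g⁻¹ = of y) : dir k g = 1 := by
  set c : M j := dir j g⁻¹ with hc
  have h1 : dir j (g * of c)⁻¹ = 1 := by
    rw [mul_inv_rev, ← map_inv, hB.dir_of_mul, ← hc, inv_mul_cancel]
  have h2 : dir k (g * of c) = 1 := by
    have hn : c⁻¹ * x * c ≠ 1 := by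
      intro h0
      apply hx
      have h3 : c * (c⁻¹ * x * c) * c⁻¹ = c * 1 * c⁻¹ := by rw [h0]
      simpa [mul_assoc] using h3
    have h3 := hM ι M j k (g * of c) (of (c⁻¹ * x * c) * (g * of c)⁻¹) hk.symm (by
      rw [hB.dir_of_mul, h1, mul_one]
      exact fun h0 => hn h0.symm)
    have h4 : g * of c * (of (c⁻¹ * x * c) * (g * of c)⁻¹) = of y := by
      rw [← h]
      simp [mul_assoc]
    rw [h4, dir_of_ne hB hk] at h3
    exact h3.symm
  by_cases hc1 : c = 1
  · rw [hc1, map_one, mul_one] at h2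
    exact h2
  · have h3 := hM ι M j k (g * of c) (of c⁻¹) hk.symm (by
      rw [h1, dir_of hB]
      intro h0
      exact hc1 (inv_eq_one.1 h0.symm))
    rw [map_inv, mul_inv_cancel_right, h2] at h3
    exact h3

theorem main (hB : S_BASE) (hM : S_MUL) : S_NRM := by
  intro ι M _ j h m m' hm he
  have hB' := hB ι M
  set a : M j := dir j h with ha
  have h1 : (of a)⁻¹ * h = 1 := by
    apply hB'.eq_one
    intro k
    by_cases hk : k = j
    · subst hk
      rw [← map_inv, hB'.dir_of_mul, ← ha, inv_mul_cancel]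
    · apply key hB' hM hk (x := m) (y := a⁻¹ * m' * a) hm
      rw [map_mul, map_mul, ← he, map_inv]
      simp [mul_assoc]
  refine ⟨a, ?_⟩
  rw [inv_mul_eq_one] at h1
  exact h1

end Pool.Agent.N77.OF.NRM
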