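import Pool.Agent.N77.OF.Stm2

/-!
# Ping-pong for the action of a free product of three groups on triples
-/

set_option autoImplicit false

namespace Pool.Agent.N77.OF.PP

open Monoid.CoprodI

theorem fin3 : ∀ i j k : Fin 3, j ≠ i → k ≠ i → j ≠ k →
    (j = i + 1 ∧ k = i + 2) ∨ (j = i + 2 ∧ k = i + 1) := by decide

theorem ne1 : ∀ i : Fin 3, i ≠ i + 1 := by decide

theorem ne2 : ∀ i : Fin 3, i + 2 ≠ i + 1 := by decide

theorem third : ∀ i j : Fin 3, j ≠ i → ∃ k : Fin 3, k ≠ i ∧ k ≠ j := by decide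

variable {M : Fin 3 → Type} [∀ i, Group (M i)]

theorem mid_iff (u : Fin 3 → Monoid.CoprodI M) {i j k : Fin 3} (hj : j ≠ i) (hk : k ≠ i)
    (hjk : j ≠ k) : Mid i u ↔ dir i ((u i)⁻¹ * u j) ≠ dir i ((u i)⁻¹ * u k) := by
  rcases fin3 i j k hj hk hjk with ⟨rfl, rfl⟩ | ⟨rfl, rfl⟩
  · exact Iff.rfl
  · exact ne_comm

/-- at most one index is in the middle -/
theorem mid_unique (hM : S_MUL) {u : Fin 3 → Monoid.CoprodI M} {i j : Fin 3} (hij : i ≠ j)
    (h : Mid i u) : ¬ Mid j u := by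
  obtain ⟨k, hki, hkj⟩ := third i j hij.symm
  rw [mid_iff u hij.symm hki hkj.symm] at h
  rw [mid_iff u hkj hij hki, not_not]
  have h1 := hM (Fin 3) M i j ((u i)⁻¹ * u j)⁻¹ ((u i)⁻¹ * u k) hij (by rwa [inv_inv])
  have h2 : ((u i)⁻¹ * u j)⁻¹ * ((u i)⁻¹ * u k) = (u j)⁻¹ * u k := by group
  have h3 : ((u i)⁻¹ * u j)⁻¹ = (u j)⁻¹ * u i := by group
  rw [h2, h3] at h1
  exact h1

/-- a move makes its index the middle -/
theorem mid_mv (hB : S_BASE) {u : Fin 3 → Monoid.CoprodI M} {i : Fin 3} (h : ¬ Mid i u) {m : M i}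
    (hm : m ≠ 1) : Mid i (mv i m u) := by
  have e0 : i ≠ i + 1 := ne1 i
  have e2 : i + 2 ≠ i + 1 := ne2 i
  unfold Mid at h ⊢
  rw [not_not] at h
  rw [mv_same, mv_ne i m u e0, mv_ne i m u e2]
  have h1 : (u i)⁻¹ * (u i * of m * (u i)⁻¹ * u (i + 1)) = of m * ((u i)⁻¹ * u (i + 1)) := by
    group
  rw [h1, (hB (Fin 3) M).dir_of_mul, h]
  intro h2
  exact hm (mul_eq_right.mp h2)

theorem not_mid_one (i : Fin 3) : ¬ Mid i (1 : Fin 3 → Monoid.CoprodI M) := by
  unfold Mid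
  rw [not_not]
  rfl

theorem ne_word (hB : S_BASE) (hM : S_MUL) {i j : Fin 3} (w : NeWord M i j) :
    ∀ u : Fin 3 → Monoid.CoprodI M, ¬ Mid j u → Mid i (act w.prod u) := by
  induction w with
  | singleton x hx =>
    intro u hu
    rw [NeWord.prod_singleton, act_of]
    exact mid_mv hB hu hx
  | append w1 hne w2 ih1 ih2 =>
    intro u hu
    rw [NeWord.append_prod, map_mul, Equiv.Perm.mul_apply]
    exact ih1 _ (mid_unique hM (Ne.symm hne) (ih2 u hu))

theorem main (hB : S_BASE) (hM : S_MUL) : S_PP := by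
  classical
  intro M _ w hw
  have h1 : Word.equiv w ≠ Word.empty := by
    intro h
    apply hw
    have h2 : Word.equiv.symm (Word.equiv w) = Word.equiv.symm (Word.empty (M := M)) := by rw [h]
    rw [Equiv.symm_apply_apply] at h2
    rw [h2]
    exact Word.prod_empty
  obtain ⟨i, j, w', hw'⟩ := NeWord.of_word (Word.equiv w) h1
  refine ⟨i, ?_⟩
  have h3 : w'.prod = w := by
    rw [NeWord.prod, hw']
    exact Word.equiv.symm_apply_apply w
  rw [← h3]
  exact ne_word hB hM w' 1 (not_mid_one j)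

end Pool.Agent.N77.OF.PP
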