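import Pool.Agent.N77.OF.StmC

/-!
# Automorphisms of a free product of three groups: the semidirect product with the automorphisms of
the factors (OF/SEMI, helper907)
-/

set_option autoImplicit false

namespace Pool.Agent.N77.OF.SEMI

open Monoid.CoprodI
open Pool.Agent.Y110.FJ (ClosedE)
open Pool.Agent.R684.FP (FbC IsFreeProd Pm)

variable (M : Fin 3 → Type) [∀ i, Group (M i)]

/-- the semidirect product -/
abbrev HH : Type := Monoid.CoprodI M ⋊[Fac] (∀ i, MulAut (M i))

/-- the inclusion of a factor -/
noncomputable def inc (i : Fin 3) : M i →* HH M :=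
  (SemidirectProduct.inl : Monoid.CoprodI M →* HH M).comp (of (M := M) (i := i))

theorem inc_inj (i : Fin 3) : Function.Injective (inc M i) :=
  SemidirectProduct.inl_injective.comp (of_injective i)

/-- the factors -/
noncomputable def A (i : Fin 3) : Subgroup (HH M) := (inc M i).range

/-- the isomorphism of a factor with its image -/
noncomputable def eA (i : Fin 3) : M i ≃* A M i := MonoidHom.ofInjective (inc_inj M i)

theorem eA_apply (i : Fin 3) (m : M i) : ((eA M i m : A M i) : HH M) =
    SemidirectProduct.inl (of m) := rfl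

/-- the kernel of the projection -/
noncomputable def N : Subgroup (HH M) := (SemidirectProduct.rightHom : HH M →* _).ker

instance : (N M).Normal := MonoidHom.normal_ker _

theorem lift_inc : Monoid.CoprodI.lift (inc M) = (SemidirectProduct.inl : Monoid.CoprodI M →* HH M) := by
  apply Monoid.CoprodI.ext_hom
  intro i
  ext x : 1
  show Monoid.CoprodI.lift (inc M) (of x) = SemidirectProduct.inl (of x)
  rw [lift_of]
  rfl

theorem sup_A : ⨆ i, A M i = N M := by
  rw [N, ← SemidirectProduct.range_inl_eq_ker_rightHom, ← lift_inc, range_eq_iSup]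
  rfl

/-- the homomorphism between the free products -/
noncomputable def ka : Monoid.CoprodI M →* Monoid.CoprodI (fun i => A M i) :=
  Monoid.CoprodI.lift fun i => (of (M := fun i => A M i) (i := i)).comp (eA M i).toMonoidHom

theorem ka_surj : Function.Surjective (ka M) := by
  intro x
  induction x using Monoid.CoprodI.induction_on with
  | one => exact ⟨1, map_one _⟩
  | of i a =>
    refine ⟨of ((eA M i).symm a), ?_⟩
    rw [ka, lift_of, MonoidHom.comp_apply]
    exact congrArg _ (MulEquiv.apply_symm_apply _ _)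
  | mul x y hx hy =>
    obtain ⟨x', rfl⟩ := hx
    obtain ⟨y', rfl⟩ := hy
    exact ⟨x' * y', map_mul _ _ _⟩

theorem lift_ka (x : Monoid.CoprodI M) :
    Monoid.CoprodI.lift (fun i => (A M i).subtype) (ka M x) = SemidirectProduct.inl x := by
  have : (Monoid.CoprodI.lift (fun i => (A M i).subtype)).comp (ka M) =
      (SemidirectProduct.inl : Monoid.CoprodI M →* HH M) := by
    apply Monoid.CoprodI.ext_hom
    intro i
    ext x : 1
    show Monoid.CoprodI.lift (fun i => (A M i).subtype) (ka M (of x)) = SemidirectProduct.inl (of x)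
    rw [ka, lift_of]
    show Monoid.CoprodI.lift (fun i => (A M i).subtype) (of (eA M i x)) = _
    rw [lift_of]
    rfl
  exact DFunLike.congr_fun this x

theorem free : IsFreeProd (N M) (A M) where
  sup := sup_A M
  inj := by
    intro x y hxy
    obtain ⟨x', rfl⟩ := ka_surj M x
    obtain ⟨y', rfl⟩ := ka_surj M y
    rw [lift_ka, lift_ka] at hxy
    rw [SemidirectProduct.inl_injective hxy]

theorem inr_conj (ψ : ∀ i, MulAut (M i)) (i : Fin 3) {x : HH M} (hx : x ∈ A M i) :
    (SemidirectProduct.inr ψ : HH M) * x * (SemidirectProduct.inr ψ)⁻¹ ∈ A M i := by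
  obtain ⟨m, rfl⟩ := hx
  refine ⟨ψ i m, ?_⟩
  show SemidirectProduct.inl (of (ψ i m)) = SemidirectProduct.inr ψ * SemidirectProduct.inl (of m) *
    (SemidirectProduct.inr ψ)⁻¹
  rw [← map_inv, ← SemidirectProduct.inl_aut, Fac_of]

theorem inr_conj_iff (ψ : ∀ i, MulAut (M i)) (i : Fin 3) (x : HH M) : x ∈ A M i ↔
    (SemidirectProduct.inr ψ : HH M) * x * (SemidirectProduct.inr ψ)⁻¹ ∈ A M i := by
  refine ⟨inr_conj M ψ i, fun h => ?_⟩
  have h1 := inr_conj M ψ⁻¹ i h
  rw [map_inv] at h1
  have h2 : (SemidirectProduct.inr ψ : HH M)⁻¹ * (SemidirectProduct.inr ψ * x *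
      (SemidirectProduct.inr ψ)⁻¹) * ((SemidirectProduct.inr ψ : HH M)⁻¹)⁻¹ = x := by
    group
  rwa [h2] at h1

theorem pm : Pm (A M) Set.univ (N M) := by
  rintro i - ⟨w, ψ⟩
  refine ⟨i, trivial, (SemidirectProduct.inl w)⁻¹, ?_, fun x => ?_⟩
  · refine inv_mem ?_
    show SemidirectProduct.rightHom (SemidirectProduct.inl w) = 1
    exact SemidirectProduct.rightHom_inl w
  · rw [SemidirectProduct.mk_eq_inl_mul_inr]
    have h : (SemidirectProduct.inl w)⁻¹ * (SemidirectProduct.inl w * SemidirectProduct.inr ψ * x *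
        (SemidirectProduct.inl w * SemidirectProduct.inr ψ)⁻¹) * ((SemidirectProduct.inl w)⁻¹)⁻¹ =
        (SemidirectProduct.inr ψ : HH M) * x * (SemidirectProduct.inr ψ)⁻¹ := by
      group
    rw [h]
    exact inr_conj_iff M ψ i x

/-- the homomorphism from the product of three groups -/
theorem pi_three (C : ∀ (G : Type) [Group G], Prop) (hC : ClosedE C) (D : Fin 3 → Type)
    [∀ i, Group (D i)] (h : ∀ i, C (D i)) : C (∀ i, D i) := by
  refine hC.base.of_injective _ (D 0 × (D 1 × D 2))
    ((Pi.evalMonoidHom D 0).prod ((Pi.evalMonoidHom D 1).prod (Pi.evalMonoidHom D 2))) ?_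
    (hC.base.prod _ _ (h 0) (hC.base.prod _ _ (h 1) (h 2)))
  intro a b hab
  have h0 : a 0 = b 0 := congrArg Prod.fst hab
  have h1 : a 1 = b 1 := congrArg (fun t => t.2.1) hab
  have h2 : a 2 = b 2 := congrArg (fun t => t.2.2) hab
  funext i
  fin_cases i
  · exact h0
  · exact h1
  · exact h2

/-- OF/SEMI -/
theorem main (hCYC : S_CYC) (_hB : S_BASE) : S_SEMI := by
  intro C hC hM hF M _ h
  refine Pool.Agent.R684.FP.main_all hC hF (N := N M) ?_ (A M) Set.univ (free M)
    (fun i hi => (hi (Set.mem_univ i)).elim) (pm M) ?_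
  · exact hC.base.of_injective _ _ (QuotientGroup.kerLift _) (QuotientGroup.kerLift_injective _)
      (pi_three C hC _ h)
  · intro i _ g hg
    exact hCYC C hC hM _ (A M i) g hg
      (hC.base.of_injective _ _ (MulAut.congr (eA M i).symm).toMonoidHom
        (MulAut.congr (eA M i).symm).injective (h i))

end Pool.Agent.N77.OF.SEMI
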