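import Pool.Agent.N77.OF.Stm2

/-!
# Automorphisms of a free product of three groups: the triple of a product of partial conjugations
(helper134)
-/

set_option autoImplicit false

namespace Pool.Agent.N77.OF.TRI

open Monoid.CoprodI

theorem gen {M : Fin 3 → Type} [∀ i, Group (M i)] (w : Monoid.CoprodI M) :
    ∀ (u : Fin 3 → Monoid.CoprodI M) (a : MulAut (Monoid.CoprodI M)),
      (∀ (j : Fin 3) (x : M j), a (of x) = u j * of x * (u j)⁻¹) →
      ∀ (j : Fin 3) (x : M j), (a * (W w)⁻¹) (of x) = act w u j * of x * (act w u j)⁻¹ := by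
  refine Monoid.CoprodI.induction_on (motive := fun w =>
    ∀ (u : Fin 3 → Monoid.CoprodI M) (a : MulAut (Monoid.CoprodI M)),
      (∀ (j : Fin 3) (x : M j), a (of x) = u j * of x * (u j)⁻¹) →
      ∀ (j : Fin 3) (x : M j), (a * (W w)⁻¹) (of x) = act w u j * of x * (act w u j)⁻¹) w ?_ ?_ ?_
  · intro u a ha j x
    rw [map_one, map_one, inv_one, mul_one]
    exact ha j x
  · intro i m u a ha j x
    rw [W_of, act_of, ← map_inv, MulAut.mul_apply, pc_apply]
    by_cases h : j = i + 1
    · subst h
      rw [pcHom_of, mv_same]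
      simp only [map_mul, map_inv, ha]
      group
    · rw [pcHom_of_ne i _ h, mv_ne i _ _ h]
      exact ha j x
  · intro w1 w2 h1 h2 u a ha j x
    have h3 := h1 (act w2 u) (a * (W w2)⁻¹) (h2 u a ha) j x
    rw [map_mul, mul_inv_rev, ← mul_assoc, map_mul]
    exact h3

theorem main : S_TRI := by
  intro M _ w j x
  have h := gen w 1 1 (fun j x => by simp) j x
  rw [one_mul] at h
  exact h

end Pool.Agent.N77.OF.TRI
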