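import Pool.Agent.N77.OF.Asm
import Pool.Agent.N77.OF.BASE
import Pool.Agent.N77.OF.MUL
import Pool.Agent.N77.OF.LEN
import Pool.Agent.N77.OF.RGT
import Pool.Agent.N77.OF.NRM
import Pool.Agent.N77.OF.PP
import Pool.Agent.N77.OF.TRI
import Pool.Agent.N77.OF.INJ
import Pool.Agent.N77.OF.EXA
import Pool.Agent.N77.OF.GEN
import Pool.Agent.N77.OF.FWR
import Pool.Agent.N77.OF.CYC
import Pool.Agent.N77.OF.SEMI
import Pool.Agent.N77.OF.INN

/-!
# Automorphisms of a free product of three groups: final theorem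
-/

set_option autoImplicit false

namespace Pool.Agent.N77.OF

open Pool.Agent.Y110.FJ (ClosedE)
open Pool.Agent.R684.FP (FbC)

theorem all {C : ∀ (G : Type) [Group G], Prop} (hC : ClosedE C) (hMet : Met C) (hF : FbC C)
    {M : Fin 3 → Type} [∀ i, Group (M i)] (hne : ∀ i, Nontrivial (M i))
    (hA : ∀ i, C (MulAut (M i))) :
    C (PAut M) ∧ ∀ (Q : Type) [Group Q] (f : PAut M →* Q), Function.Surjective f →
      (∀ φ, f φ = 1 ↔ ∃ g, (φ : MulAut (Monoid.CoprodI M)) = MulAut.conj g) → C Q := by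
  have hB : S_BASE := BASE.main
  have hM : S_MUL := MUL.main hB
  have hR : S_RGT := RGT.main hB
  have hN : S_NRM := NRM.main hB hM
  have hP : S_PP := PP.main hB hM
  have hT : S_TRI := TRI.main
  have hI : S_INJ := INJ.main hB hN hP hT
  have hE : S_EXA := EXA.main hB hM hR
  have hG : S_GEN := GEN.main hB (LEN.main hB) hE FWR.fw
  exact final hC hMet hF hI hG hT FWR.fw FWR.rep (SEMI.main CYC.main hB)
    (INN.main CYC.main hN FWR.rep) hne hA

/-- `Q` is isomorphic to the quotient of `PAut M` by the inner automorphisms -/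
def IsOut (M : Fin 3 → Type) [∀ i, Group (M i)] (Q : Type) [Group Q] : Prop :=
  ∃ f : PAut M →* Q, Function.Surjective f ∧
    ∀ φ, f φ = 1 ↔ ∃ g, (φ : MulAut (Monoid.CoprodI M)) = MulAut.conj g

/-- the class contains the metabelian groups and the groups `F ⋊ Z` for free groups `F` -/
def Fund (C : ∀ (G : Type) [Group G], Prop) : Prop :=
  (∀ (G : Type) [Group G], derivedSeries G 2 = ⊥ → C G) ∧ FbC C

theorem all' {C : ∀ (G : Type) [Group G], Prop} (hC : ClosedE C) (hF : Fund C)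
    {M : Fin 3 → Type} [∀ i, Group (M i)] (hne : ∀ i, Nontrivial (M i))
    (hA : ∀ i, C (MulAut (M i))) :
    C (PAut M) ∧ ∀ (Q : Type) [Group Q], IsOut M Q → C Q := by
  have := all hC hF.1 hF.2 hne hA
  exact ⟨this.1, fun Q _ ⟨f, h1, h2⟩ => this.2 Q f h1 h2⟩

end Pool.Agent.N77.OF
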