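import Pool.Agent.N77.OF.Fin

/-!
# Short statement
-/

set_option autoImplicit false

namespace Pool.Agent.N77.OF

open Pool.Agent.Y110.FJ (ClosedE)

section gen

variable {G : Type} [Group G]

/-- `φ` maps the subgroup `A` onto a conjugate of `A` -/
inductive CjTo (A : Subgroup G) (φ : MulAut G) : Prop
  | mk (g : G) (h : ∀ x, x ∈ A ↔ g⁻¹ * φ x * g ∈ A) : CjTo A φ

theorem CjTo.one (A : Subgroup G) : CjTo A 1 := ⟨1, fun x => by simp⟩

theorem CjTo.mul {A : Subgroup G} {φ χ : MulAut G} (h1 : CjTo A φ) (h2 : CjTo A χ) :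
    CjTo A (φ * χ) := by
  obtain ⟨g, hg⟩ := h1
  obtain ⟨h, hh⟩ := h2
  refine ⟨φ h * g, fun x => ?_⟩
  rw [hh x, hg]
  have : g⁻¹ * φ (h⁻¹ * χ x * h) * g = (φ h * g)⁻¹ * (φ * χ) x * (φ h * g) := by
    rw [map_mul, map_mul, map_inv, MulAut.mul_apply]
    group
  rw [this]

theorem CjTo.inv {A : Subgroup G} {φ : MulAut G} (h1 : CjTo A φ) : CjTo A φ⁻¹ := by
  obtain ⟨g, hg⟩ := h1
  refine ⟨(φ⁻¹ g)⁻¹, fun x => ?_⟩
  rw [hg ((φ⁻¹ g)⁻¹⁻¹ * φ⁻¹ x * (φ⁻¹ g)⁻¹)]
  have : g⁻¹ * φ ((φ⁻¹ g)⁻¹⁻¹ * φ⁻¹ x * (φ⁻¹ g)⁻¹) * g = x := by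
    rw [map_mul, map_mul, inv_inv, map_inv, MulAut.apply_inv_self, MulAut.apply_inv_self]
    group
  rw [this]

/-- the automorphisms which map each of the subgroups `A i` onto a conjugate of itself -/
def SymAut {ι : Type} (A : ι → Subgroup G) : Subgroup (MulAut G) where
  carrier := {φ | ∀ i, CjTo (A i) φ}
  one_mem' i := CjTo.one (A i)
  mul_mem' h1 h2 i := (h1 i).mul (h2 i)
  inv_mem' h1 i := (h1 i).inv

/-- `Q` is isomorphic to the quotient of `P` by the inner automorphisms -/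
inductive ModInn (P : Subgroup (MulAut G)) (Q : Type) [Group Q] : Prop
  | mk (f : P →* Q) (hf : Function.Surjective f) (h : ∀ φ, f φ = 1 ↔ ∃ g, φ.1 = MulAut.conj g) :
    ModInn P Q

end gen

/-- the factor `M i` of the free product -/
def fac {ι : Type} (M : ι → Type) [∀ i, Group (M i)] (i : ι) : Subgroup (Monoid.CoprodI M) :=
  (Monoid.CoprodI.of (M := M) (i := i)).range

theorem SymAut_eq {ι : Type} (M : ι → Type) [∀ i, Group (M i)] : SymAut (fac M) = PAut M := by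
  ext φ
  constructor
  · intro h i
    obtain ⟨g, hg⟩ := h i
    refine ⟨g, ?_⟩
    ext x
    constructor
    · rintro ⟨y, hy, rfl⟩
      refine ⟨g⁻¹ * φ y * g, (hg y).1 hy, ?_⟩
      show g * (g⁻¹ * φ y * g) * g⁻¹ = φ y
      group
    · rintro ⟨y, hy, rfl⟩
      refine ⟨φ⁻¹ (g * y * g⁻¹), (hg _).2 ?_, MulAut.apply_inv_self _ φ _⟩
      have h1 : g⁻¹ * φ (φ⁻¹ (g * y * g⁻¹)) * g = y := by
        rw [MulAut.apply_inv_self]
        group
      rw [h1]
      exact hy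
  · intro h i
    obtain ⟨g, hg⟩ := h i
    refine ⟨g, fun x => ?_⟩
    have h1 : ∀ x, φ x ∈ (fac M i).map φ.toMonoidHom ↔ x ∈ fac M i := fun x =>
      Subgroup.mem_map_iff_mem φ.injective
    have h2 : ∀ y, y ∈ (fac M i).map (MulAut.conj g).toMonoidHom ↔ g⁻¹ * y * g ∈ fac M i := by
      intro y
      constructor
      · rintro ⟨z, hz, rfl⟩
        have : g⁻¹ * (MulAut.conj g).toMonoidHom z * g = z := by
          show g⁻¹ * (g * z * g⁻¹) * g = z
          group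
        rw [this]
        exact hz
      · intro hy
        refine ⟨_, hy, ?_⟩
        show g * (g⁻¹ * y * g) * g⁻¹ = y
        group
    rw [← h1 x, ← h2]
    have h3 : (fac M i).map φ.toMonoidHom = (fac M i).map (MulAut.conj g).toMonoidHom := hg
    rw [h3]

theorem short {C : ∀ (G : Type) [Group G], Prop} (hC : ClosedE C) (hF : Fund C)
    {M : Fin 3 → Type} [∀ i, Group (M i)] (hne : ∀ i, Nontrivial (M i))
    (hA : ∀ i, C (MulAut (M i))) :
    C (SymAut (fac M)) ∧ ∀ (Q : Type) [Group Q], ModInn (SymAut (fac M)) Q → C Q := by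
  rw [SymAut_eq]
  have := all hC hF.1 hF.2 hne hA
  exact ⟨this.1, fun Q _ ⟨f, h1, h2⟩ => this.2 Q f h1 h2⟩

end Pool.Agent.N77.OF
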