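import Mathlib

/-!
# Automorphisms of a free product of three groups: definitions and statements of the parts
-/

set_option autoImplicit false

namespace Pool.Agent.N77.OF

open Monoid.CoprodI

section gen

variable {ι : Type} {M : ι → Type} [∀ i, Group (M i)]

open scoped Classical in
/-- the first syllable of the reduced word of `g` if it lies in `M i`, and `1` otherwise -/
noncomputable def dir (i : ι) (g : Monoid.CoprodI M) : M i :=
  (Word.equivPair i (Word.equiv g)).head

open scoped Classical in
/-- the length of the reduced word of `g` -/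
noncomputable def len (g : Monoid.CoprodI M) : ℕ := (Word.equiv g).toList.length

/-- the automorphism defined by automorphisms of the factors -/
noncomputable def Fac : (∀ i, MulAut (M i)) →* MulAut (Monoid.CoprodI M) where
  toFun ψ := MonoidHom.toMulEquiv
    (Monoid.CoprodI.lift fun i => (of (M := M) (i := i)).comp (ψ i).toMonoidHom)
    (Monoid.CoprodI.lift fun i => (of (M := M) (i := i)).comp (ψ⁻¹ i).toMonoidHom)
    (by
      apply Monoid.CoprodI.ext_hom
      intro i
      ext x
      simp)
    (by
      apply Monoid.CoprodI.ext_hom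
      intro i
      ext x
      simp)
  map_one' := by
    apply MulEquiv.toMonoidHom_injective
    apply Monoid.CoprodI.ext_hom
    intro i
    ext x
    simp
  map_mul' ψ χ := by
    apply MulEquiv.toMonoidHom_injective
    apply Monoid.CoprodI.ext_hom
    intro i
    ext x
    simp

theorem Fac_of (ψ : ∀ i, MulAut (M i)) (i : ι) (x : M i) :
    Fac ψ (of x) = of (ψ i x) := by
  simp [Fac]

end gen

section three

variable {M : Fin 3 → Type} [∀ i, Group (M i)]

/-- the factor `M (i+1)` is conjugated by `m⁻¹`, the other factors are fixed -/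
noncomputable def pcHom (i : Fin 3) (m : M i) : Monoid.CoprodI M →* Monoid.CoprodI M :=
  Monoid.CoprodI.lift fun j =>
    if j = i + 1 then (MulAut.conj (of (M := M) m)⁻¹).toMonoidHom.comp of else of

theorem pcHom_of (i : Fin 3) (m : M i) (x : M (i + 1)) :
    pcHom i m (of x) = (of m)⁻¹ * of x * of m := by
  simp [pcHom]

theorem pcHom_of_ne (i : Fin 3) (m : M i) {j : Fin 3} (h : j ≠ i + 1) (x : M j) :
    pcHom i m (of x) = of x := by
  simp [pcHom, h]

theorem pcHom_mul (i : Fin 3) (m n : M i) : (pcHom i m).comp (pcHom i n) = pcHom i (m * n) := by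
  have h0 : i ≠ i + 1 := by
    intro h
    have := congrArg (fun t => t - i) h
    simp at this
  apply Monoid.CoprodI.ext_hom
  intro j
  ext x : 1
  show pcHom i m (pcHom i n (of x)) = pcHom i (m * n) (of x)
  by_cases h : j = i + 1
  · subst h
    rw [pcHom_of, map_mul, map_mul, map_inv, pcHom_of, pcHom_of_ne i m h0, pcHom_of, map_mul]
    group
  · rw [pcHom_of_ne i n h, pcHom_of_ne i m h, pcHom_of_ne i _ h]

theorem pcHom_one (i : Fin 3) : pcHom (M := M) i 1 = MonoidHom.id _ := by
  apply Monoid.CoprodI.ext_hom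
  intro j
  ext x : 1
  show pcHom i 1 (of x) = of x
  by_cases h : j = i + 1
  · subst h
    rw [pcHom_of]
    simp
  · rw [pcHom_of_ne i _ h]

/-- the partial conjugation `pc i m` maps `x` in `M (i+1)` to `m⁻¹ x m` and fixes the other factors -/
noncomputable def pc (i : Fin 3) : M i →* MulAut (Monoid.CoprodI M) where
  toFun m := MonoidHom.toMulEquiv (pcHom i m) (pcHom i m⁻¹)
    (by rw [pcHom_mul, inv_mul_cancel, pcHom_one]) (by rw [pcHom_mul, mul_inv_cancel, pcHom_one])
  map_one' := by
    apply MulEquiv.toMonoidHom_injective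
    show pcHom i 1 = MonoidHom.id _
    exact pcHom_one i
  map_mul' m n := by
    apply MulEquiv.toMonoidHom_injective
    show pcHom i (m * n) = (pcHom i m).comp (pcHom i n)
    exact (pcHom_mul i m n).symm

theorem pc_apply (i : Fin 3) (m : M i) (g : Monoid.CoprodI M) : pc i m g = pcHom i m g := rfl

/-- the homomorphism from the free product to its automorphism group given by the partial conjugations -/
noncomputable def W : Monoid.CoprodI M →* MulAut (Monoid.CoprodI M) :=
  Monoid.CoprodI.lift pc

theorem W_of (i : Fin 3) (m : M i) : W (of m) = pc i m := by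
  simp [W]

/-- the move `i` with the element `m` on triples -/
noncomputable def mv (i : Fin 3) (m : M i) (u : Fin 3 → Monoid.CoprodI M) :
    Fin 3 → Monoid.CoprodI M :=
  Function.update u (i + 1) (u i * of m * (u i)⁻¹ * u (i + 1))

theorem mv_same (i : Fin 3) (m : M i) (u : Fin 3 → Monoid.CoprodI M) :
    mv i m u (i + 1) = u i * of m * (u i)⁻¹ * u (i + 1) := by
  simp [mv]

theorem mv_ne (i : Fin 3) (m : M i) (u : Fin 3 → Monoid.CoprodI M) {j : Fin 3} (h : j ≠ i + 1) :
    mv i m u j = u j := by
  simp [mv, h]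

theorem mv_mul (i : Fin 3) (m n : M i) (u : Fin 3 → Monoid.CoprodI M) :
    mv i m (mv i n u) = mv i (m * n) u := by
  have h0 : i ≠ i + 1 := by
    intro h
    have := congrArg (fun t => t - i) h
    simp at this
  funext j
  by_cases h : j = i + 1
  · subst h
    rw [mv_same, mv_same, mv_same, mv_ne i n u h0, map_mul]
    group
  · rw [mv_ne i _ _ h, mv_ne i _ _ h, mv_ne i _ _ h]

theorem mv_one (i : Fin 3) (u : Fin 3 → Monoid.CoprodI M) : mv i 1 u = u := by
  funext j
  by_cases h : j = i + 1
  · subst h
    rw [mv_same]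
    simp
  · rw [mv_ne i _ _ h]

/-- the action of the free product on triples -/
noncomputable def act : Monoid.CoprodI M →* Equiv.Perm (Fin 3 → Monoid.CoprodI M) :=
  Monoid.CoprodI.lift fun i =>
    { toFun := fun m =>
        { toFun := mv i m
          invFun := mv i m⁻¹
          left_inv := fun u => by rw [mv_mul, inv_mul_cancel, mv_one]
          right_inv := fun u => by rw [mv_mul, mul_inv_cancel, mv_one] }
      map_one' := by
        ext u : 1
        exact mv_one i u
      map_mul' := fun m n => by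
        ext u : 1
        exact (mv_mul i m n u).symm }

theorem act_of (i : Fin 3) (m : M i) (u : Fin 3 → Monoid.CoprodI M) :
    act (of m) u = mv i m u := by
  simp [act]

/-- `u i` is in the middle of the triple `u` -/
def Mid (i : Fin 3) (u : Fin 3 → Monoid.CoprodI M) : Prop :=
  dir i ((u i)⁻¹ * u (i + 1)) ≠ dir i ((u i)⁻¹ * u (i + 2))

end three

/-- `φ` maps the factor `M i` onto a conjugate of itself -/
def Sym {ι : Type} (M : ι → Type) [∀ i, Group (M i)] (φ : MulAut (Monoid.CoprodI M)) (i : ι) : Prop :=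
  ∃ g : Monoid.CoprodI M, (of (M := M) (i := i)).range.map φ.toMonoidHom =
    (of (M := M) (i := i)).range.map (MulAut.conj g).toMonoidHom

section sym

variable {ι : Type} {M : ι → Type} [∀ i, Group (M i)]

theorem Sym_one (i : ι) : Sym M 1 i := ⟨1, by simp⟩

theorem Sym_mul {φ χ : MulAut (Monoid.CoprodI M)} {i : ι} (hφ : Sym M φ i) (hχ : Sym M χ i) :
    Sym M (φ * χ) i := by
  obtain ⟨g, hg⟩ := hφ
  obtain ⟨h, hh⟩ := hχ
  refine ⟨φ h * g, ?_⟩
  have h1 : (φ * χ).toMonoidHom = φ.toMonoidHom.comp χ.toMonoidHom := rfl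
  have h2 : (MulAut.conj (φ h * g)).toMonoidHom =
      (MulAut.conj (φ h)).toMonoidHom.comp (MulAut.conj g).toMonoidHom := by
    ext x; simp [mul_assoc]
  have h3 : φ.toMonoidHom.comp (MulAut.conj h).toMonoidHom =
      (MulAut.conj (φ h)).toMonoidHom.comp φ.toMonoidHom := by
    ext x; simp
  rw [h1, ← Subgroup.map_map, hh, Subgroup.map_map, h3, ← Subgroup.map_map, hg, Subgroup.map_map,
    ← h2]

theorem Sym_inv {φ : MulAut (Monoid.CoprodI M)} {i : ι} (hφ : Sym M φ i) : Sym M φ⁻¹ i := by
  obtain ⟨g, hg⟩ := hφ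
  refine ⟨(φ⁻¹ g)⁻¹, ?_⟩
  have h1 : (MulAut.conj (φ⁻¹ g)⁻¹).toMonoidHom.comp φ⁻¹.toMonoidHom =
      φ⁻¹.toMonoidHom.comp (MulAut.conj g⁻¹).toMonoidHom := by
    ext x; simp
  have h2 : φ⁻¹.toMonoidHom.comp φ.toMonoidHom = MonoidHom.id _ := by
    ext x; simp
  have h4 : (MulAut.conj g⁻¹).toMonoidHom.comp (MulAut.conj g).toMonoidHom = MonoidHom.id _ := by
    ext x; simp [mul_assoc]
  have h5 : (MulAut.conj (φ⁻¹ g)⁻¹).toMonoidHom =
      (φ⁻¹.toMonoidHom.comp (MulAut.conj g⁻¹).toMonoidHom).comp φ.toMonoidHom := by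
    rw [← h1, MonoidHom.comp_assoc, h2]; rfl
  rw [h5, ← Subgroup.map_map, hg, Subgroup.map_map, MonoidHom.comp_assoc, h4]
  rfl

end sym

/-- the automorphisms of the free product which map each factor onto a conjugate of itself -/
def PAut {ι : Type} (M : ι → Type) [∀ i, Group (M i)] : Subgroup (MulAut (Monoid.CoprodI M)) where
  carrier := {φ | ∀ i, Sym M φ i}
  one_mem' := fun i => Sym_one i
  mul_mem' := fun hφ hχ i => Sym_mul (hφ i) (hχ i)
  inv_mem' := fun hφ i => Sym_inv (hφ i)

end Pool.Agent.N77.OF
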