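import Pool.Agent.N77.OF.Stm

/-!
# Automorphisms of a free product of three groups: the combinatorial parts
-/

set_option autoImplicit false

namespace Pool.Agent.N77.OF

open Monoid.CoprodI

/-- basic facts on first syllables and lengths -/
structure Base (ι : Type) (M : ι → Type) [∀ i, Group (M i)] : Prop where
  dir_of_mul : ∀ (i : ι) (m : M i) (g : Monoid.CoprodI M), dir i (of m * g) = m * dir i g
  dir_ne : ∀ (i j : ι) (g : Monoid.CoprodI M), j ≠ i → dir i g ≠ 1 → dir j g = 1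
  eq_one : ∀ g : Monoid.CoprodI M, (∀ i, dir i g = 1) → g = 1
  dir_one : ∀ i : ι, dir (M := M) i 1 = 1
  len_one : ∀ g : Monoid.CoprodI M, len g = 0 ↔ g = 1
  len_inv : ∀ g : Monoid.CoprodI M, len g⁻¹ = len g
  len_mul : ∀ g h : Monoid.CoprodI M, len (g * h) ≤ len g + len h
  len_of_mul : ∀ (i : ι) (m : M i) (g : Monoid.CoprodI M), dir i g ≠ 1 → len (of m * g) ≤ len g
  len_strip : ∀ (i : ι) (g : Monoid.CoprodI M), dir i g ≠ 1 → len ((of (dir i g))⁻¹ * g) + 1 = len g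

/-- BASE -/
def S_BASE : Prop := ∀ (ι : Type) (M : ι → Type) [∀ i, Group (M i)], Base ι M

/-- MUL. first syllables of products without complete cancellation at `i` -/
def S_MUL : Prop := ∀ (ι : Type) (M : ι → Type) [∀ i, Group (M i)] (i j : ι)
  (g h : Monoid.CoprodI M), i ≠ j → dir i g⁻¹ ≠ dir i h → dir j (g * h) = dir j g

/-- LEN. lengths of reduced products -/
def S_LEN : Prop := ∀ (ι : Type) (M : ι → Type) [∀ i, Group (M i)] (i : ι)
  (g h : Monoid.CoprodI M), dir i g⁻¹ ≠ dir i h → (dir i h = 1 ∨ dir i g⁻¹ = 1) →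
    len (g * h) = len g + len h

/-- RGT. multiplication by one syllable on the right -/
def S_RGT : Prop := ∀ (ι : Type) (M : ι → Type) [∀ i, Group (M i)] (k l : ι)
  (g : Monoid.CoprodI M) (n : M l), (k = l → g ∉ (of (M := M) (i := l)).range) →
    dir k (g * of n) = dir k g

/-- NRM. the factors of a free product are malnormal -/
def S_NRM : Prop := ∀ (ι : Type) (M : ι → Type) [∀ i, Group (M i)] (j : ι)
  (h : Monoid.CoprodI M) (m m' : M j), m ≠ 1 → h * of m * h⁻¹ = of m' →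
    h ∈ (of (M := M) (i := j)).range

/-- PP. ping-pong -/
def S_PP : Prop := ∀ (M : Fin 3 → Type) [∀ i, Group (M i)] (w : Monoid.CoprodI M), w ≠ 1 →
  ∃ i, Mid i (act w 1)

/-- TRI. the triple of a product of partial conjugations -/
def S_TRI : Prop := ∀ (M : Fin 3 → Type) [∀ i, Group (M i)] (w : Monoid.CoprodI M) (j : Fin 3)
  (x : M j), (W w)⁻¹ (of x) = act w 1 j * of x * (act w 1 j)⁻¹

/-- INJ. -/
def S_INJ : Prop := ∀ (M : Fin 3 → Type) [∀ i, Group (M i)] (_ : ∀ i, Nontrivial (M i))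
  (w : Monoid.CoprodI M) (ψ : ∀ i, MulAut (M i)) (g : Monoid.CoprodI M),
    W w * Fac ψ = MulAut.conj g → w = 1 ∧ ψ = 1

/-- EXA. all directions trivial -/
def S_EXA : Prop := ∀ (ι : Type) (M : ι → Type) [∀ i, Group (M i)] (φ : MulAut (Monoid.CoprodI M))
  (u : ι → Monoid.CoprodI M) (ψ : ∀ i, MulAut (M i)),
    (∀ i (x : M i), φ (of x) = u i * of (ψ i x) * (u i)⁻¹) →
    (∀ i j, i ≠ j → dir i ((u i)⁻¹ * u j) = 1) → ∀ i j, u i = u j

/-- GEN. generation -/
def S_GEN : Prop := ∀ (M : Fin 3 → Type) [∀ i, Group (M i)] (φ : MulAut (Monoid.CoprodI M))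
  (u : Fin 3 → Monoid.CoprodI M) (ψ : ∀ i, MulAut (M i)),
    (∀ i (x : M i), φ (of x) = u i * of (ψ i x) * (u i)⁻¹) →
    ∃ (g w : Monoid.CoprodI M) (χ : ∀ i, MulAut (M i)), φ = MulAut.conj g * (W w * Fac χ)

/-- FW. automorphisms of the factors normalize the partial conjugations -/
def S_FW : Prop := ∀ (M : Fin 3 → Type) [∀ i, Group (M i)] (ψ : ∀ i, MulAut (M i))
  (w : Monoid.CoprodI M), Fac ψ * W w * (Fac ψ)⁻¹ = W (Fac ψ w)

/-- REP. the elements of `PAut M` -/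
def S_REP : Prop := ∀ (ι : Type) (M : ι → Type) [∀ i, Group (M i)]
  (φ : MulAut (Monoid.CoprodI M)), φ ∈ PAut M ↔
    ∃ (u : ι → Monoid.CoprodI M) (ψ : ∀ i, MulAut (M i)),
      ∀ i (x : M i), φ (of x) = u i * of (ψ i x) * (u i)⁻¹

end Pool.Agent.N77.OF
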