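import Pool.Agent.N77.OF.Stm2
import Pool.Agent.N77.CP.Ind
import Pool.Agent.R684.FP.Main

/-!
# Automorphisms of a free product of three groups: the parts about the class
-/

set_option autoImplicit false

namespace Pool.Agent.N77.OF

open Monoid.CoprodI
open Pool.Agent.Y110.FJ (ClosedE)
open Pool.Agent.R684.FP (FbC)

/-- the metabelian groups are in the class -/
def Met (C : ∀ (G : Type) [Group G], Prop) : Prop :=
  ∀ (G : Type) [Group G], derivedSeries G 2 = ⊥ → C G

/-- LZ. extensions of groups with automorphism group in the class -/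
def S_LZ : Prop := ∀ (C : ∀ (G : Type) [Group G], Prop), ClosedE C → Met C →
  ∀ (L : Type) [Group L] (A : Subgroup L) [A.Normal], C (L ⧸ A) → C (MulAut A) → C L

/-- CYC. -/
def S_CYC : Prop := ∀ (C : ∀ (G : Type) [Group G], Prop), ClosedE C → Met C →
  ∀ (G : Type) [Group G] (A : Subgroup G) (g : G), (∀ x, x ∈ A ↔ g * x * g⁻¹ ∈ A) →
    C (MulAut A) → C ↥(A ⊔ Subgroup.zpowers g)

/-- SEMI. -/
def S_SEMI : Prop := ∀ (C : ∀ (G : Type) [Group G], Prop), ClosedE C → Met C → FbC C →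
  ∀ (M : Fin 3 → Type) [∀ i, Group (M i)], (∀ i, C (MulAut (M i))) →
    C (Monoid.CoprodI M ⋊[Fac] (∀ i, MulAut (M i)))

/-- INN. -/
def S_INN : Prop := ∀ (C : ∀ (G : Type) [Group G], Prop), ClosedE C → Met C → FbC C →
  ∀ (M : Fin 3 → Type) [∀ i, Group (M i)] (_ : ∀ i, Nontrivial (M i)), (∀ i, C (MulAut (M i))) →
  ∀ (Q : Type) [Group Q] (f : PAut M →* Q), Function.Surjective f →
    (∀ φ, f φ = 1 ↔ ∃ g, (φ : MulAut (Monoid.CoprodI M)) = MulAut.conj g) → C Q → C (PAut M)

end Pool.Agent.N77.OF
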